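import Mathlib
import Pool.Agent.P.MP_4503fd_co.Defs

-- part Pool.Agent.P.MP_4503fd_co.Perm
section

/-! The method of types for averages over a uniformly random permutation. -/

namespace Pool.Agent.P.MP_4503fd_co

open Finset
open scoped Nat

variable {T : Type} [Fintype T] [DecidableEq T] {N : ℕ}

def cnt (τ : Fin N → T) (t : T) : ℕ := #{u | τ u = t}

omit [Fintype T] in
lemma cnt_le (τ : Fin N → T) (t : T) : cnt τ t ≤ N := by
  simpa [cnt] using card_le_univ ({u | τ u = t} : Finset (Fin N))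

def ty (τ : Fin N → T) : T → Fin (N + 1) := fun t => ⟨cnt τ t, Nat.lt_succ_of_le (cnt_le τ t)⟩

omit [Fintype T] in
@[simp] lemma ty_val (τ : Fin N → T) (t : T) : (ty τ t : ℕ) = cnt τ t := rfl

lemma sum_cnt (τ : Fin N → T) : ∑ t, cnt τ t = N := by
  have := card_eq_sum_card_fiberwise (f := τ) (s := univ) (t := univ) (by simp)
  simpa [cnt] using this.symm

lemma prod_comp_eq (τ : Fin N → T) (p : T → ℝ) : ∏ u, p (τ u) = ∏ t, p t ^ cnt τ t := by
  rw [← prod_fiberwise (s := univ) (g := τ) (f := fun u => p (τ u))]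
  refine prod_congr rfl fun t _ => ?_
  rw [prod_congr rfl (g := fun _ => p t) (fun u hu => by rw [(mem_filter.1 hu).2]), prod_const]
  rfl

omit [Fintype T] in
lemma cnt_comp (τ : Fin N → T) (π : Equiv.Perm (Fin N)) (t : T) : cnt (τ ∘ π) t = cnt τ t := by
  unfold cnt
  exact card_bij (fun u _ => π u) (by simp) (by simp) (fun v hv => ⟨π.symm v, by simpa using hv, by simp⟩)

omit [Fintype T] in
lemma exists_perm {τ τ' : Fin N → T} (h : ty τ = ty τ') :
    ∃ π : Equiv.Perm (Fin N), τ' ∘ π = τ := by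
  have e : ∀ t, {u // τ u = t} ≃ {u // τ' u = t} := fun t =>
    Fintype.equivOfCardEq (by
      have := congrArg (fun n => (n t : ℕ)) h
      simpa [cnt, Fintype.card_subtype] using this)
  exact ⟨Equiv.ofFiberEquiv e, funext fun u => Equiv.ofFiberEquiv_map e u⟩

lemma card_perm_eq (τ τ' : Fin N → T) :
    #{π : Equiv.Perm (Fin N) | τ' ∘ π = τ} = if ty τ = ty τ' then ∏ t, (cnt τ' t)! else 0 := by
  split_ifs with h
  · obtain ⟨π0, h0⟩ := exists_perm h
    have h1 := DomMulAct.stabilizer_card τ'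
    simp only [Fintype.card_subtype] at h1
    rw [show ∏ t, (cnt τ' t)! = _ from h1.symm]
    refine card_bij (fun π _ => π * π0⁻¹) ?_ ?_ ?_
    · intro π hπ
      simp only [mem_filter, mem_univ, true_and] at hπ ⊢
      funext u
      have e1 := congrFun hπ (π0⁻¹ u)
      have e2 := congrFun h0 (π0⁻¹ u)
      simp only [Function.comp, Equiv.Perm.coe_inv, Equiv.apply_symm_apply] at e1 e2
      simp [e1, e2]
    · intro a _ b _ hab
      simpa using hab
    · intro g hg
      simp only [mem_filter, mem_univ, true_and] at hg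
      refine ⟨g * π0, ?_, by simp⟩
      simp only [mem_filter, mem_univ, true_and]
      rw [← h0, Equiv.Perm.coe_mul, ← Function.comp_assoc, hg]
  · rw [card_eq_zero, filter_eq_empty_iff]
    intro π _ hπ
    apply h
    funext t
    ext
    simp [← hπ, cnt_comp]

lemma card_class (τ' : Fin N → T) : #{τ : Fin N → T | ty τ = ty τ'} * ∏ t, (cnt τ' t)! = N ! := by
  have := card_eq_sum_card_fiberwise (f := fun π : Equiv.Perm (Fin N) => τ' ∘ π) (s := univ)
    (t := univ) (by simp)
  simp only [card_perm_eq] at this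
  rw [card_univ, Fintype.card_perm, Fintype.card_fin, ← sum_filter, sum_const, smul_eq_mul] at this
  exact this.symm

noncomputable def PP (n : T → Fin (N + 1)) : ℝ := (∏ t, ((n t : ℕ)! : ℝ)) / N !

noncomputable def bb (x : Fin N → T → ℝ) (n : T → Fin (N + 1)) : ℝ :=
  ∑ τ : Fin N → T with ty τ = n, ∏ u, x u (τ u)

noncomputable def Per (x y : Fin N → T → ℝ) : ℝ :=
  (∑ π : Equiv.Perm (Fin N), ∏ u, ∑ t, x u t * y (π u) t) / N !

omit [DecidableEq T] in
lemma PP_nonneg (n : T → Fin (N + 1)) : 0 ≤ PP n := by unfold PP; positivity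

lemma bb_nonneg {x : Fin N → T → ℝ} (hx : ∀ u t, 0 ≤ x u t) (n : T → Fin (N + 1)) : 0 ≤ bb x n :=
  sum_nonneg fun _ _ => prod_nonneg fun _ _ => hx _ _

lemma sum_bb (x : Fin N → T → ℝ) : ∑ n, bb x n = ∏ u, ∑ t, x u t := by
  unfold bb
  rw [sum_fiberwise (s := univ) (g := ty) (f := fun τ : Fin N → T => ∏ u, x u (τ u)),
    Fintype.prod_sum]

lemma bb_le {x : Fin N → T → ℝ} (hx : ∀ u t, 0 ≤ x u t) (n : T → Fin (N + 1)) :
    bb x n ≤ ∏ u, ∑ t, x u t := by
  rw [← sum_bb]
  exact single_le_sum (f := fun n => bb x n) (fun n _ => bb_nonneg hx n) (mem_univ n)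

lemma bb_mul (x : Fin N → T → ℝ) (p : T → ℝ) (n : T → Fin (N + 1)) :
    bb (fun u t => x u t * p t) n = (∏ t, p t ^ (n t : ℕ)) * bb x n := by
  unfold bb
  rw [mul_sum]
  refine sum_congr rfl fun τ hτ => ?_
  rw [prod_mul_distrib, prod_comp_eq τ p, ← (mem_filter.1 hτ).2, mul_comm]
  rfl

/-- average of a function of the permuted word -/
lemma sum_perm_comp (c : Fin N → T) (x : Fin N → T → ℝ) :
    (∑ π : Equiv.Perm (Fin N), ∏ u, x u (c (π u))) / N ! = PP (ty c) * bb x (ty c) := by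
  have : ∑ π : Equiv.Perm (Fin N), ∏ u, x u (c (π u)) =
      ∑ τ : Fin N → T, (#{π : Equiv.Perm (Fin N) | c ∘ π = τ} : ℝ) * ∏ u, x u (τ u) := by
    rw [← sum_fiberwise (s := univ) (g := fun π : Equiv.Perm (Fin N) => c ∘ π)]
    refine sum_congr rfl fun τ _ => ?_
    rw [sum_congr rfl (g := fun _ => ∏ u, x u (τ u)) (fun π hπ => by
      rw [← (mem_filter.1 hπ).2]; rfl), sum_const, nsmul_eq_mul]
  rw [this]
  simp only [card_perm_eq]
  unfold PP bb
  rw [sum_filter, mul_sum, sum_div]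
  refine sum_congr rfl fun τ _ => ?_
  split_ifs with h
  · push_cast
    simp only [ty_val]
    ring
  · simp

lemma Per_eq (x y : Fin N → T → ℝ) : Per x y = ∑ n, PP n * bb x n * bb y n := by
  have h1 : ∀ π : Equiv.Perm (Fin N), ∏ u, ∑ t, x u t * y (π u) t =
      ∑ c : Fin N → T, (∏ u, x u (c (π u))) * ∏ u, y u (c u) := by
    intro π
    rw [Fintype.prod_sum]
    refine (Fintype.sum_equiv (Equiv.arrowCongr π.symm (Equiv.refl T)) _ _ fun c => ?_).symm
    rw [prod_mul_distrib, ← Equiv.prod_comp π (fun u => y u (c u))]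
    simp
  unfold Per
  simp only [h1]
  rw [sum_comm, sum_div]
  simp only [← sum_mul]
  rw [← sum_fiberwise (s := univ) (g := ty)]
  refine sum_congr rfl fun n _ => ?_
  conv_rhs => rw [bb.eq_1 y, mul_sum]
  refine sum_congr rfl fun c hc => ?_
  rw [mul_div_right_comm, sum_perm_comp, (mem_filter.1 hc).2]

lemma PP_mul_card (τ : Fin N → T) : PP (ty τ) * #{τ' : Fin N → T | ty τ' = ty τ} = 1 := by
  have := card_class τ
  have h2 : (N ! : ℝ) ≠ 0 := by positivity
  unfold PP
  field_simp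
  rw [← this]
  push_cast
  simp only [ty_val]
  ring

lemma bb_const (p : T → ℝ) (n : T → Fin (N + 1)) :
    bb (fun _ t => p t) n = (∏ t, p t ^ (n t : ℕ)) * #{τ' : Fin N → T | ty τ' = n} := by
  have := bb_mul (fun (_ : Fin N) (_ : T) => (1 : ℝ)) p n
  simp only [one_mul] at this
  rw [this]
  simp [bb]

lemma PP_lower (τ : Fin N → T) {p : T → ℝ} (hp : ∀ t, 0 ≤ p t) (h1 : ∑ t, p t ≤ 1) :
    ∏ t, p t ^ (ty τ t : ℕ) ≤ PP (ty τ) := by
  have h2 := bb_le (x := fun (_ : Fin N) t => p t) (fun _ t => hp t) (ty τ)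
  rw [bb_const] at h2
  have h3 : ∏ _u : Fin N, ∑ t, p t ≤ 1 :=
    prod_le_one (fun _ _ => sum_nonneg fun t _ => hp t) fun _ _ => h1
  have h4 := PP_mul_card τ
  have h5 := PP_nonneg (ty τ)
  calc ∏ t, p t ^ (ty τ t : ℕ)
      = ((∏ t, p t ^ (ty τ t : ℕ)) * #{τ' : Fin N → T | ty τ' = ty τ}) * PP (ty τ) := by
        rw [mul_assoc, mul_comm _ (PP _), h4, mul_one]
    _ ≤ 1 * PP (ty τ) := by gcongr; exact h2.trans h3
    _ = _ := one_mul _

lemma pow_mul_factorial_le (n m : ℕ) : n ^ m * n ! ≤ n ^ n * m ! := by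
  rcases le_total n m with h | h
  · obtain ⟨k, rfl⟩ := Nat.exists_eq_add_of_le h
    rw [pow_add, mul_assoc]
    refine Nat.mul_le_mul_left _ ?_
    rw [mul_comm]
    exact (Nat.mul_le_mul_left _ (Nat.pow_le_pow_left (Nat.le_succ n) k)).trans
      Nat.factorial_mul_pow_le_factorial
  · obtain ⟨k, rfl⟩ := Nat.exists_eq_add_of_le h
    rw [pow_add, mul_assoc]
    refine Nat.mul_le_mul_left _ ?_
    rw [← Nat.factorial_mul_ascFactorial m k, mul_comm]
    refine Nat.mul_le_mul_right _ ?_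
    exact Nat.ascFactorial_le_pow_add m k

lemma PP_upper (hN : 0 < N) (τ : Fin N → T) :
    PP (ty τ) ≤ (N + 1 : ℝ) ^ Fintype.card T * ∏ t, ((cnt τ t : ℝ) / N) ^ (ty τ t : ℕ) := by
  have hN' : (0 : ℝ) < N := by exact_mod_cast hN
  set q : T → ℝ := fun t => (cnt τ t : ℝ) / N with hq
  have hq0 : ∀ t, 0 ≤ q t := fun t => by positivity
  have hq1 : ∑ t, q t = 1 := by
    rw [← sum_div, ← Nat.cast_sum, sum_cnt, div_self hN'.ne']
  have h1 := sum_bb (fun (_ : Fin N) t => q t)
  rw [hq1, prod_const_one] at h1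
  have key : ∀ n, PP (ty τ) * bb (fun (_ : Fin N) t => q t) n ≤ ∏ t, q t ^ (ty τ t : ℕ) := by
    intro n
    by_cases hn : ∃ c : Fin N → T, ty c = n
    · obtain ⟨c, rfl⟩ := hn
      rw [bb_const]
      have h4 := PP_mul_card c
      have hc : 0 < PP (ty c) := by unfold PP; positivity
      have h5 : PP (ty τ) * ∏ t, q t ^ (ty c t : ℕ) ≤ PP (ty c) * ∏ t, q t ^ (ty τ t : ℕ) := by
        simp only [hq, PP, ty_val, div_pow, prod_div_distrib, prod_pow_eq_pow_sum, sum_cnt]
        rw [div_mul_div_comm, div_mul_div_comm, ← prod_mul_distrib, ← prod_mul_distrib]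
        refine div_le_div_of_nonneg_right (prod_le_prod (fun t _ => by positivity) fun t _ => ?_)
          (by positivity)
        have := pow_mul_factorial_le (cnt τ t) (cnt c t)
        rw [mul_comm, mul_comm ((cnt c t)! : ℝ)]
        exact_mod_cast this
      calc PP (ty τ) * ((∏ t, q t ^ (ty c t : ℕ)) * #{τ' : Fin N → T | ty τ' = ty c})
          = (PP (ty τ) * ∏ t, q t ^ (ty c t : ℕ)) * #{τ' : Fin N → T | ty τ' = ty c} := by ring
        _ ≤ (PP (ty c) * ∏ t, q t ^ (ty τ t : ℕ)) * #{τ' : Fin N → T | ty τ' = ty c} := by gcongr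
        _ = (PP (ty c) * #{τ' : Fin N → T | ty τ' = ty c}) * ∏ t, q t ^ (ty τ t : ℕ) := by ring
        _ = _ := by rw [h4, one_mul]
    · have : bb (fun (_ : Fin N) t => q t) n = 0 := by
        unfold bb
        rw [filter_eq_empty_iff.2 (fun c _ hc => hn ⟨c, hc⟩), sum_empty]
      rw [this, mul_zero]
      exact prod_nonneg fun t _ => pow_nonneg (hq0 t) _
  calc PP (ty τ) = ∑ n, PP (ty τ) * bb (fun (_ : Fin N) t => q t) n := by
        rw [← mul_sum, h1, mul_one]
    _ ≤ ∑ _n : T → Fin (N + 1), ∏ t, q t ^ (ty τ t : ℕ) := sum_le_sum fun n _ => key n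
    _ = _ := by simp [hq]

/-- the unit vector attached to a type -/
noncomputable def GG (n : T → Fin (N + 1)) (t : T) : ℝ :=
  if ∑ s, (n s : ℕ) = N then √((n t : ℕ) / N) else 0

omit [DecidableEq T] in
lemma GG_nonneg (n : T → Fin (N + 1)) (t : T) : 0 ≤ GG n t := by
  unfold GG; split_ifs <;> positivity

omit [DecidableEq T] in
lemma GG_sq (n : T → Fin (N + 1)) : ∑ t, GG n t ^ 2 ≤ 1 := by
  unfold GG
  split_ifs with h
  · rw [sum_congr rfl (g := fun t => ((n t : ℕ) : ℝ) / N) (fun t _ => Real.sq_sqrt (by positivity)),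
      ← sum_div, ← Nat.cast_sum, h]
    exact div_self_le_one _
  · simp

lemma Per_upper (hN : 0 < N) {x y : Fin N → T → ℝ} (hx : ∀ u t, 0 ≤ x u t)
    (hy : ∀ u t, 0 ≤ y u t) :
    Per x y ≤ (N + 1 : ℝ) ^ Fintype.card T *
      ∑ n : T → Fin (N + 1), (∏ u, ∑ t, x u t * GG n t) * ∏ u, ∑ t, y u t * GG n t := by
  rw [Per_eq, mul_sum]
  refine sum_le_sum fun n _ => ?_
  have hx' : ∀ u t, 0 ≤ x u t * GG n t := fun u t => mul_nonneg (hx u t) (GG_nonneg n t)
  have hy' : ∀ u t, 0 ≤ y u t * GG n t := fun u t => mul_nonneg (hy u t) (GG_nonneg n t)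
  have b1 := bb_le hx' n
  have b2 := bb_le hy' n
  have b3 := bb_nonneg hx' n
  have b4 := bb_nonneg hy' n
  refine le_trans ?_ (mul_le_mul_of_nonneg_left (mul_le_mul b1 b2 b4 (b3.trans b1)) (by positivity))
  by_cases hn : ∃ c : Fin N → T, ty c = n
  · obtain ⟨c, rfl⟩ := hn
    rw [bb_mul, bb_mul]
    have h1 := PP_upper hN c
    have h2 : ∏ t, ((cnt c t : ℝ) / N) ^ (ty c t : ℕ) =
        (∏ t, GG (ty c) t ^ (ty c t : ℕ)) * ∏ t, GG (ty c) t ^ (ty c t : ℕ) := by
      rw [← prod_mul_distrib]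
      refine prod_congr rfl fun t _ => ?_
      rw [← mul_pow, GG, if_pos (by simp [sum_cnt]), Real.mul_self_sqrt (by positivity)]
      rfl
    rw [h2] at h1
    have := mul_le_mul_of_nonneg_right h1 (mul_nonneg (bb_nonneg hx (ty c)) (bb_nonneg hy (ty c)))
    nlinarith [this]
  · have : bb x n = 0 := by
      unfold bb
      rw [filter_eq_empty_iff.2 (fun c _ hc => hn ⟨c, hc⟩), sum_empty]
    rw [this, mul_zero, zero_mul]
    positivity

lemma Per_lower {x y : Fin N → T → ℝ} (hx : ∀ u t, 0 ≤ x u t) (hy : ∀ u t, 0 ≤ y u t)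
    {g : T → ℝ} (h1 : ∑ t, g t ^ 2 ≤ 1) :
    ∑ n : T → Fin (N + 1), bb (fun u t => x u t * g t) n * bb (fun u t => y u t * g t) n ≤
      Per x y := by
  rw [Per_eq]
  refine sum_le_sum fun n _ => ?_
  by_cases hn : ∃ c : Fin N → T, ty c = n
  · obtain ⟨c, rfl⟩ := hn
    rw [bb_mul, bb_mul]
    have h2 := PP_lower c (p := fun t => g t ^ 2) (fun t => by positivity) h1
    have h3 : ∏ t, (g t ^ 2) ^ (ty c t : ℕ) =
        (∏ t, g t ^ (ty c t : ℕ)) * ∏ t, g t ^ (ty c t : ℕ) := by
      rw [← prod_mul_distrib]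
      refine prod_congr rfl fun t _ => ?_
      rw [← mul_pow, sq]
    rw [h3] at h2
    have := mul_le_mul_of_nonneg_right h2 (mul_nonneg (bb_nonneg hx (ty c)) (bb_nonneg hy (ty c)))
    nlinarith [this]
  · have : bb x n = 0 := by
      unfold bb
      rw [filter_eq_empty_iff.2 (fun c _ hc => hn ⟨c, hc⟩), sum_empty]
    rw [bb_mul x, this]
    simp

lemma perm_comp_upper (hN : 0 < N) (c : Fin N → T) {x : Fin N → T → ℝ} (hx : ∀ u t, 0 ≤ x u t) :
    (∑ π : Equiv.Perm (Fin N), ∏ u, x u (c (π u))) / N ! ≤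
      (N + 1 : ℝ) ^ Fintype.card T * ∏ u, ∑ t, x u t * ((cnt c t : ℝ) / N) := by
  rw [sum_perm_comp]
  have h1 := PP_upper hN c
  have h2 := bb_le (x := fun u t => x u t * ((cnt c t : ℝ) / N))
    (fun u t => mul_nonneg (hx u t) (by positivity)) (ty c)
  rw [bb_mul] at h2
  calc _ ≤ ((N + 1 : ℝ) ^ Fintype.card T * ∏ t, ((cnt c t : ℝ) / N) ^ (ty c t : ℕ)) *
        bb x (ty c) := mul_le_mul_of_nonneg_right h1 (bb_nonneg hx _)
    _ ≤ _ := by rw [mul_assoc]; gcongr

end Pool.Agent.P.MP_4503fd_co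
end

-- part Pool.Agent.P.MP_4503fd_co.Model
section

/-! Completely positive spin models on random lifts: first moment bounds. -/

namespace Pool.Agent.P.MP_4503fd_co

open Finset
open scoped Nat

structure Model where
  S : Type
  T : Type
  [fS : Fintype S]
  [fT : Fintype T]
  [dS : DecidableEq S]
  [dT : DecidableEq T]
  w : S → ℝ
  ph : S → T → ℝ
  hw : ∀ s, 0 ≤ w s
  hph : ∀ s t, 0 ≤ ph s t

attribute [instance] Model.fS Model.fT Model.dS Model.dT

variable {J : Type} [Fintype J] [DecidableEq J]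

namespace Model

abbrev one : Model where
  S := Unit
  T := Unit
  w := fun _ => 1
  ph := fun _ _ => 1
  hw := fun _ => zero_le_one
  hph := fun _ _ => zero_le_one

abbrev mul (M M' : Model) : Model where
  S := M.S × M'.S
  T := M.T × M'.T
  w := fun s => M.w s.1 * M'.w s.2
  ph := fun s t => M.ph s.1 t.1 * M'.ph s.2 t.2
  hw := fun _ => mul_nonneg (M.hw _) (M'.hw _)
  hph := fun _ _ => mul_nonneg (M.hph _ _) (M'.hph _ _)

noncomputable def F (M : Model) (g : J → M.T → ℝ) : ℝ :=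
  ∑ s, M.w s * ∏ j, ∑ t, M.ph s t * g j t

end Model

def Adm {T : Type} [Fintype T] (g : J → T → ℝ) : Prop :=
  ∀ j, (∀ t, 0 ≤ g j t) ∧ ∑ t, g j t ^ 2 ≤ 1

namespace Model

omit [DecidableEq J] in
lemma F_nonneg (M : Model) {g : J → M.T → ℝ} (hg : Adm g) : 0 ≤ M.F g :=
  sum_nonneg fun s _ => mul_nonneg (M.hw s) (prod_nonneg fun j _ =>
    sum_nonneg fun t _ => mul_nonneg (M.hph s t) ((hg j).1 t))

omit [DecidableEq J] in
lemma exists_max (M : Model) :
    ∃ g : J → M.T → ℝ, Adm g ∧ ∀ g' : J → M.T → ℝ, Adm g' → M.F g' ≤ M.F g := by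
  have hc : IsCompact {g : J → M.T → ℝ | Adm g} := by
    refine (isCompact_Icc (a := (0 : J → M.T → ℝ)) (b := 1)).of_isClosed_subset ?_ ?_
    · simp only [Adm, Set.ofPred_forall, Set.ofPred_and]
      refine isClosed_iInter fun j => (isClosed_iInter fun t => ?_).inter ?_
      · exact isClosed_le continuous_const (by fun_prop)
      · exact isClosed_le (by fun_prop) continuous_const
    · intro g hg
      refine ⟨fun j t => (hg j).1 t, fun j t => ?_⟩
      have h1 : g j t ^ 2 ≤ 1 :=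
        (single_le_sum (f := fun t => g j t ^ 2) (fun t _ => sq_nonneg _) (mem_univ t)).trans (hg j).2
      have := (hg j).1 t
      show g j t ≤ 1
      nlinarith
  have hn : {g : J → M.T → ℝ | Adm g}.Nonempty := ⟨0, fun j => by simp⟩
  have hF : Continuous (M.F (J := J)) := by unfold F; fun_prop
  obtain ⟨g, hg, hm⟩ := hc.exists_isMaxOn hn hF.continuousOn
  exact ⟨g, hg, fun g' hg' => hm hg'⟩

variable (J) in
noncomputable def gs (M : Model) : J → M.T → ℝ := (M.exists_max (J := J)).choose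

variable (J) in
noncomputable def Phi (M : Model) : ℝ := M.F (M.gs J)

omit [DecidableEq J] in
lemma gs_adm (M : Model) : Adm (M.gs J) := (M.exists_max (J := J)).choose_spec.1

omit [DecidableEq J] in
lemma F_le (M : Model) {g : J → M.T → ℝ} (hg : Adm g) : M.F g ≤ M.Phi J :=
  (M.exists_max (J := J)).choose_spec.2 g hg

omit [DecidableEq J] in
lemma Phi_nonneg (M : Model) : 0 ≤ M.Phi J := M.F_nonneg M.gs_adm

omit [DecidableEq J] in
lemma Phi_one : one.Phi J = 1 := by
  apply le_antisymm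
  · have h := one.gs_adm (J := J)
    unfold Phi F
    simp only [one, univ_unique, sum_singleton, one_mul]
    refine prod_le_one (fun j _ => (h j).1 _) fun j _ => ?_
    have h1 := (h j).2
    have h2 := (h j).1 ()
    simp only [one, univ_unique, sum_singleton] at h1
    change one.gs J j () ^ 2 ≤ 1 at h1
    change one.gs J j () ≤ 1
    nlinarith
  · have := one.F_le (J := J) (g := fun _ _ => 1) (fun j => by simp [one])
    simpa [F, one] using this

/-- triangle inequality in `ℓ²` -/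
lemma sq_sum_le {A B : Type} [Fintype A] [Fintype B] (a : A → ℝ) (ha : ∀ i, 0 ≤ a i)
    (G : A → B → ℝ) :
    √(∑ t, (∑ i, a i * G i t) ^ 2) ≤ ∑ i, a i * √(∑ t, G i t ^ 2) := by
  have h1 : ∀ v : B → ℝ, √(∑ t, v t ^ 2) = ‖(WithLp.toLp 2 v : EuclideanSpace ℝ B)‖ := by
    intro v
    simp [EuclideanSpace.norm_eq]
  simp only [h1]
  have h2 : (WithLp.toLp 2 (fun t => ∑ i, a i * G i t) : EuclideanSpace ℝ B) =
      ∑ i, a i • (WithLp.toLp 2 (G i) : EuclideanSpace ℝ B) := by
    ext t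
    simp
  rw [h2]
  refine (norm_sum_le _ _).trans (le_of_eq (sum_congr rfl fun i _ => ?_))
  rw [norm_smul, Real.norm_of_nonneg (ha i)]

omit [DecidableEq J] in
lemma F_le_norm (M : Model) {g : J → M.T → ℝ} (hg : ∀ j t, 0 ≤ g j t) :
    M.F g ≤ M.Phi J * ∏ j, √(∑ t, g j t ^ 2) := by
  by_cases h : ∃ j, ∑ t, g j t ^ 2 = 0
  · obtain ⟨j, hj⟩ := h
    have h0 : ∀ t, g j t = 0 := fun t => by
      have := (sum_eq_zero_iff_of_nonneg (fun t _ => sq_nonneg (g j t))).1 hj t (mem_univ t)
      simpa using this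
    have : M.F g = 0 := sum_eq_zero fun s _ => by
      rw [prod_eq_zero (mem_univ j) (by simp [h0]), mul_zero]
    rw [this]
    exact mul_nonneg M.Phi_nonneg (prod_nonneg fun _ _ => Real.sqrt_nonneg _)
  · push Not at h
    have hp : ∀ j, 0 < √(∑ t, g j t ^ 2) := fun j =>
      Real.sqrt_pos.2 (lt_of_le_of_ne (sum_nonneg fun t _ => sq_nonneg _) (h j).symm)
    have h1 := M.F_le (g := fun j t => g j t / √(∑ t, g j t ^ 2)) (fun j => ⟨fun t =>
      div_nonneg (hg j t) (hp j).le, by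
        simp only [div_pow]
        rw [← sum_div, Real.sq_sqrt (sum_nonneg fun t _ => sq_nonneg _), div_self (h j)]⟩)
    have h2 : M.F (fun j t => g j t / √(∑ t, g j t ^ 2)) = M.F g / ∏ j, √(∑ t, g j t ^ 2) := by
      unfold F
      rw [sum_div]
      refine sum_congr rfl fun s _ => ?_
      rw [mul_div_assoc, ← prod_div_distrib]
      simp only [sum_div, mul_div_assoc]
    rw [h2, div_le_iff₀ (prod_pos fun j _ => hp j)] at h1
    exact h1

omit [DecidableEq J] in
lemma Phi_mul (M M' : Model) : (M.mul M').Phi J = M.Phi J * M'.Phi J := by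
  apply le_antisymm
  · obtain hG := (M.mul M').gs_adm (J := J)
    unfold Phi
    generalize (M.mul M').gs J = G at hG
    change J → M.T × M'.T → ℝ at G
    have h1 : (M.mul M').F G =
        ∑ s, M.w s * M'.F (fun j t' => ∑ t, M.ph s t * G j (t, t')) := by
      unfold F
      change ∑ s : M.S × M'.S, M.w s.1 * M'.w s.2 *
        ∏ j, ∑ t : M.T × M'.T, M.ph s.1 t.1 * M'.ph s.2 t.2 * G j t = _
      rw [Fintype.sum_prod_type]
      refine sum_congr rfl fun s _ => ?_
      rw [mul_sum]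
      refine sum_congr rfl fun s' _ => ?_
      rw [mul_assoc]
      congr 2
      refine prod_congr rfl fun j _ => ?_
      rw [Fintype.sum_prod_type_right]
      refine sum_congr rfl fun t' _ => ?_
      rw [mul_sum]
      exact sum_congr rfl fun t _ => by ring
    have h2 : Adm (fun j t => √(∑ t', G j (t, t') ^ 2)) := fun j =>
      ⟨fun t => Real.sqrt_nonneg _, by
        rw [sum_congr rfl fun t _ => Real.sq_sqrt (sum_nonneg fun t' _ => sq_nonneg _),
          ← Fintype.sum_prod_type']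
        exact (hG j).2⟩
    rw [h1]
    calc _ ≤ ∑ s, M.w s * (M'.Phi J * ∏ j, ∑ t, M.ph s t * √(∑ t', G j (t, t') ^ 2)) := by
          refine sum_le_sum fun s _ => mul_le_mul_of_nonneg_left ?_ (M.hw s)
          refine (M'.F_le_norm fun j t' => sum_nonneg fun t _ =>
            mul_nonneg (M.hph s t) ((hG j).1 _)).trans ?_
          refine mul_le_mul_of_nonneg_left ?_ M'.Phi_nonneg
          exact prod_le_prod (fun j _ => Real.sqrt_nonneg _) fun j _ =>
            sq_sum_le _ (M.hph s) fun t t' => G j (t, t')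
      _ = M.F (fun j t => √(∑ t', G j (t, t') ^ 2)) * M'.Phi J := by
          unfold F
          rw [sum_mul]
          exact sum_congr rfl fun s _ => by ring
      _ ≤ _ := mul_le_mul_of_nonneg_right (M.F_le h2) M'.Phi_nonneg
  · have hg := M.gs_adm (J := J)
    have hg' := M'.gs_adm (J := J)
    have h := (M.mul M').F_le (J := J) (g := fun j (t : M.T × M'.T) => M.gs J j t.1 * M'.gs J j t.2)
      (fun j => ⟨fun t => mul_nonneg ((hg j).1 _) ((hg' j).1 _), by
        change ∑ t : M.T × M'.T, (M.gs J j t.1 * M'.gs J j t.2) ^ 2 ≤ 1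
        simp only [mul_pow]
        rw [Fintype.sum_prod_type' (fun t t' => M.gs J j t ^ 2 * M'.gs J j t' ^ 2), ← sum_mul_sum]
        exact mul_le_one₀ (hg j).2 (sum_nonneg fun _ _ => sq_nonneg _) (hg' j).2⟩)
    refine le_trans (le_of_eq ?_) h
    unfold Phi F
    change _ = ∑ s : M.S × M'.S, M.w s.1 * M'.w s.2 *
        ∏ j, ∑ t : M.T × M'.T, M.ph s.1 t.1 * M'.ph s.2 t.2 * (M.gs J j t.1 * M'.gs J j t.2)
    rw [Fintype.sum_prod_type, sum_mul_sum]
    refine sum_congr rfl fun s _ => sum_congr rfl fun s' _ => ?_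
    rw [mul_mul_mul_comm, ← prod_mul_distrib]
    congr 1
    refine prod_congr rfl fun j _ => ?_
    rw [Fintype.sum_prod_type, sum_mul_sum]
    exact sum_congr rfl fun t _ => sum_congr rfl fun t' _ => by ring

variable {V I : Type} [Fintype V] [DecidableEq V] [Fintype I] [DecidableEq I] {N : ℕ}

/-- partition function on the lift given by the permutations `π` -/
noncomputable def Z (M : Model) (β : J → I × Bool ≃ V) (π : J × I → Equiv.Perm (Fin N)) : ℝ :=
  ∑ σ : V → Fin N → M.S, (∏ v, ∏ u, M.w (σ v u)) * ∏ e : J × I, ∏ u,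
    ∑ t, M.ph (σ (β e.1 (e.2, false)) u) t * M.ph (σ (β e.1 (e.2, true)) (π e u)) t

omit [DecidableEq J] [DecidableEq I] in
lemma Z_nonneg (M : Model) (β : J → I × Bool ≃ V) (π : J × I → Equiv.Perm (Fin N)) :
    0 ≤ M.Z β π :=
  sum_nonneg fun _ _ => mul_nonneg (prod_nonneg fun _ _ => prod_nonneg fun _ _ => M.hw _)
    (prod_nonneg fun _ _ => prod_nonneg fun _ _ => sum_nonneg fun _ _ =>
      mul_nonneg (M.hph _ _) (M.hph _ _))

omit [DecidableEq J] [DecidableEq I] in
lemma Z_one (β : J → I × Bool ≃ V) (π : J × I → Equiv.Perm (Fin N)) : one.Z β π = 1 := by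
  simp [Z, one]

omit [DecidableEq J] [DecidableEq I] in
lemma Z_mul (M M' : Model) (β : J → I × Bool ≃ V) (π : J × I → Equiv.Perm (Fin N)) :
    (M.mul M').Z β π = M.Z β π * M'.Z β π := by
  unfold Z
  rw [sum_mul_sum, ← Fintype.sum_prod_type']
  let e : (V → Fin N → M.S) × (V → Fin N → M'.S) ≃ (V → Fin N → M.S × M'.S) :=
    { toFun := fun p v u => (p.1 v u, p.2 v u)
      invFun := fun σ => (fun v u => (σ v u).1, fun v u => (σ v u).2)
      left_inv := fun _ => rfl
      right_inv := fun _ => rfl }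
  refine (Fintype.sum_equiv e _ _ fun p => ?_).symm
  change _ = (∏ v, ∏ u, M.w (p.1 v u) * M'.w (p.2 v u)) * ∏ e : J × I, ∏ u, ∑ t : M.T × M'.T,
    M.ph (p.1 (β e.1 (e.2, false)) u) t.1 * M'.ph (p.2 (β e.1 (e.2, false)) u) t.2 *
    (M.ph (p.1 (β e.1 (e.2, true)) (π e u)) t.1 * M'.ph (p.2 (β e.1 (e.2, true)) (π e u)) t.2)
  simp only [prod_mul_distrib]
  rw [mul_mul_mul_comm, ← prod_mul_distrib (s := (univ : Finset (J × I)))]
  congr 1
  refine prod_congr rfl fun e _ => ?_
  rw [← prod_mul_distrib]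
  refine prod_congr rfl fun u _ => ?_
  rw [Fintype.sum_prod_type, sum_mul_sum]
  exact sum_congr rfl fun t _ => sum_congr rfl fun t' _ => by ring

end Model

/-- average over independent uniform permutations -/
noncomputable def Av {E : Type} [Fintype E] [DecidableEq E] {N : ℕ}
    (f : (E → Equiv.Perm (Fin N)) → ℝ) : ℝ :=
  (∑ π, f π) / (N ! : ℝ) ^ Fintype.card E

section Av

variable {E : Type} [Fintype E] [DecidableEq E] {N : ℕ}

lemma Av_prod (f : E → Equiv.Perm (Fin N) → ℝ) :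
    Av (fun π => ∏ e, f e (π e)) = ∏ e, (∑ p, f e p) / N ! := by
  unfold Av
  rw [prod_div_distrib, Fintype.prod_sum, prod_const, card_univ]

lemma Av_sum {A : Type} (s : Finset A) (f : A → (E → Equiv.Perm (Fin N)) → ℝ) :
    Av (fun π => ∑ a ∈ s, f a π) = ∑ a ∈ s, Av (f a) := by
  unfold Av
  rw [sum_comm, sum_div]

lemma Av_mul (c : ℝ) (f : (E → Equiv.Perm (Fin N)) → ℝ) : Av (fun π => c * f π) = c * Av f := by
  unfold Av
  rw [← mul_sum, mul_div_assoc]

lemma Av_add (f g : (E → Equiv.Perm (Fin N)) → ℝ) : Av (fun π => f π + g π) = Av f + Av g := by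
  unfold Av
  rw [sum_add_distrib, add_div]

lemma Av_mono {f g : (E → Equiv.Perm (Fin N)) → ℝ} (h : ∀ π, f π ≤ g π) : Av f ≤ Av g :=
  div_le_div_of_nonneg_right (sum_le_sum fun π _ => h π) (by positivity)

lemma Av_const (c : ℝ) : Av (fun _ : E → Equiv.Perm (Fin N) => c) = c := by
  unfold Av
  have : (N ! : ℝ) ≠ 0 := by positivity
  simp [Fintype.card_perm, this]

end Av

namespace Model

variable {V I : Type} [Fintype V] [DecidableEq V] [Fintype I] [DecidableEq I] {N : ℕ}

lemma Av_Z (M : Model) (β : J → I × Bool ≃ V) :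
    Av (M.Z (N := N) β) = ∑ σ : V → Fin N → M.S, (∏ v, ∏ u, M.w (σ v u)) * ∏ e : J × I,
      Per (fun u => M.ph (σ (β e.1 (e.2, false)) u)) (fun u => M.ph (σ (β e.1 (e.2, true)) u)) := by
  unfold Z
  rw [Av_sum]
  refine sum_congr rfl fun σ _ => ?_
  rw [Av_mul, Av_prod (fun (e : J × I) (p : Equiv.Perm (Fin N)) => ∏ u,
    ∑ t, M.ph (σ (β e.1 (e.2, false)) u) t * M.ph (σ (β e.1 (e.2, true)) (p u)) t)]
  rfl

omit [DecidableEq J] [DecidableEq I] in
lemma rearrange {S : Type} [Fintype S] (β : J → I × Bool ≃ V) (W : S → ℝ) (B : J × I → S → ℝ) :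
    ∑ σ : V → S, (∏ v, W (σ v)) *
      ∏ e : J × I, B e (σ (β e.1 (e.2, false))) * B e (σ (β e.1 (e.2, true))) =
    ∏ v, ∑ ρ, W ρ * ∏ j, B (j, ((β j).symm v).1) ρ := by
  rw [Fintype.prod_sum]
  refine sum_congr rfl fun σ _ => ?_
  rw [prod_mul_distrib (s := (univ : Finset V)), prod_comm (s := (univ : Finset V)),
    Fintype.prod_prod_type]
  congr 1
  refine prod_congr rfl fun j _ => ?_
  rw [← Equiv.prod_comp (β j), Fintype.prod_prod_type]
  refine prod_congr rfl fun i _ => ?_
  simp [mul_comm]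

omit [DecidableEq J] in
lemma sum_fiber (M : Model) (g : J → M.T → ℝ) :
    ∑ ρ : Fin N → M.S, (∏ u, M.w (ρ u)) * ∏ j, ∏ u, ∑ t, M.ph (ρ u) t * g j t = M.F g ^ N := by
  have : M.F g ^ N = ∏ _u : Fin N, M.F g := by simp
  rw [this, F, Fintype.prod_sum]
  refine sum_congr rfl fun ρ _ => ?_
  rw [prod_mul_distrib, prod_comm (s := (univ : Finset J))]

lemma Av_Z_upper (hN : 0 < N) (M : Model) (β : J → I × Bool ≃ V) :
    Av (M.Z (N := N) β) ≤ (N + 1 : ℝ) ^ (2 * Fintype.card M.T * Fintype.card (J × I)) *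
      M.Phi J ^ (N * Fintype.card V) := by
  rw [Av_Z]
  set C : ℝ := (N + 1 : ℝ) ^ Fintype.card M.T with hC
  let B : (J × I → M.T → Fin (N + 1)) → J × I → (Fin N → M.S) → ℝ :=
    fun n e ρ => ∏ u, ∑ t, M.ph (ρ u) t * GG (n e) t
  calc _ ≤ ∑ σ : V → Fin N → M.S, (∏ v, ∏ u, M.w (σ v u)) * (C ^ Fintype.card (J × I) *
        ∑ n : J × I → M.T → Fin (N + 1),
          ∏ e : J × I, B n e (σ (β e.1 (e.2, false))) * B n e (σ (β e.1 (e.2, true)))) := by
        refine sum_le_sum fun σ _ => mul_le_mul_of_nonneg_left ?_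
          (prod_nonneg fun _ _ => prod_nonneg fun _ _ => M.hw _)
        refine (prod_le_prod (fun e _ => ?_) fun e _ =>
          Per_upper hN (fun u t => M.hph _ t) (fun u t => M.hph _ t)).trans (le_of_eq ?_)
        · exact div_nonneg (sum_nonneg fun _ _ => prod_nonneg fun _ _ => sum_nonneg fun _ _ =>
            mul_nonneg (M.hph _ _) (M.hph _ _)) (by positivity)
        · rw [prod_mul_distrib, prod_const, card_univ, Fintype.prod_sum]
    _ = C ^ Fintype.card (J × I) * ∑ n : J × I → M.T → Fin (N + 1),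
          ∑ σ : V → Fin N → M.S, (∏ v, ∏ u, M.w (σ v u)) *
          ∏ e : J × I, B n e (σ (β e.1 (e.2, false))) * B n e (σ (β e.1 (e.2, true))) := by
        rw [sum_comm, mul_sum]
        refine sum_congr rfl fun σ _ => ?_
        rw [← mul_sum]
        ring
    _ ≤ C ^ Fintype.card (J × I) * ∑ _n : J × I → M.T → Fin (N + 1),
          M.Phi J ^ (N * Fintype.card V) := by
        refine mul_le_mul_of_nonneg_left (sum_le_sum fun n _ => ?_) (by positivity)
        rw [rearrange β (fun ρ : Fin N → M.S => ∏ u, M.w (ρ u)) (B n), pow_mul, ← card_univ,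
          ← prod_const]
        have hA : ∀ v, Adm (fun j => GG (n (j, ((β j).symm v).1))) := fun v j =>
          ⟨GG_nonneg _, GG_sq _⟩
        refine prod_le_prod (fun v _ => ?_) fun v _ => ?_
        · rw [M.sum_fiber (fun j => GG (n (j, ((β j).symm v).1)))]
          exact pow_nonneg (M.F_nonneg (hA v)) _
        · rw [M.sum_fiber (fun j => GG (n (j, ((β j).symm v).1)))]
          exact pow_le_pow_left₀ (M.F_nonneg (hA v)) (M.F_le (hA v)) _
    _ = _ := by
        simp only [sum_const, card_univ, Fintype.card_pi, Fintype.card_fin, prod_const, hC,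
          nsmul_eq_mul]
        push_cast
        ring

lemma Av_Z_lower (M : Model) (β : J → I × Bool ≃ V) :
    M.Phi J ^ (N * Fintype.card V) ≤
      (N + 1 : ℝ) ^ (Fintype.card M.T * Fintype.card J * Fintype.card V) *
        Av (M.Z (N := N) β) := by
  have hg := M.gs_adm (J := J)
  let b : J → (M.T → Fin (N + 1)) → (Fin N → M.S) → ℝ :=
    fun j n ρ => bb (fun u t => M.ph (ρ u) t * M.gs J j t) n
  have hb : ∀ j n ρ, 0 ≤ b j n ρ := fun j n ρ =>
    bb_nonneg (fun u t => mul_nonneg (M.hph _ _) ((hg j).1 t)) n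
  let A : (J → M.T → Fin (N + 1)) → ℝ :=
    fun n => ∑ ρ : Fin N → M.S, (∏ u, M.w (ρ u)) * ∏ j, b j (n j) ρ
  have hA : ∑ n, A n = M.Phi J ^ N := by
    rw [Phi, ← M.sum_fiber, sum_comm]
    refine sum_congr rfl fun ρ _ => ?_
    rw [← mul_sum, ← Fintype.prod_sum (fun j n => b j n ρ)]
    simp only [b, sum_bb]
  obtain ⟨n, -, hn⟩ := exists_max_image univ A univ_nonempty
  have h1 : M.Phi J ^ N ≤ (N + 1 : ℝ) ^ (Fintype.card M.T * Fintype.card J) * A n := by
    rw [← hA]
    refine (sum_le_sum fun m hm => hn m hm).trans (le_of_eq ?_)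
    simp only [sum_const, card_univ, Fintype.card_pi, Fintype.card_fin, prod_const, nsmul_eq_mul]
    push_cast
    ring
  have h2 : A n ^ Fintype.card V ≤ Av (M.Z (N := N) β) := by
    rw [Av_Z, ← card_univ, ← prod_const]
    have := rearrange β (fun ρ : Fin N → M.S => ∏ u, M.w (ρ u)) (fun e ρ => b e.1 (n e.1) ρ)
    simp only [A]
    rw [← this]
    refine sum_le_sum fun σ _ => mul_le_mul_of_nonneg_left ?_
      (prod_nonneg fun _ _ => prod_nonneg fun _ _ => M.hw _)
    refine prod_le_prod (fun e _ => mul_nonneg (hb _ _ _) (hb _ _ _)) fun e _ => ?_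
    refine le_trans ?_ (Per_lower (fun u t => M.hph _ t) (fun u t => M.hph _ t) (hg e.1).2)
    exact single_le_sum (f := fun m => b e.1 m (σ (β e.1 (e.2, false))) *
      b e.1 m (σ (β e.1 (e.2, true)))) (fun m _ => mul_nonneg (hb _ _ _) (hb _ _ _)) (mem_univ _)
  calc _ = (M.Phi J ^ N) ^ Fintype.card V := pow_mul _ _ _
    _ ≤ ((N + 1 : ℝ) ^ (Fintype.card M.T * Fintype.card J) * A n) ^ Fintype.card V :=
        pow_le_pow_left₀ (pow_nonneg M.Phi_nonneg _) h1 _
    _ ≤ _ := by
        rw [mul_pow, ← pow_mul]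
        gcongr

end Model

end Pool.Agent.P.MP_4503fd_co
end

-- part Pool.Agent.P.MP_4503fd_co.Good
section

/-! Existence of lifts whose free energies are all close to the annealed ones. -/

namespace Pool.Agent.P.MP_4503fd_co

open Finset Filter Topology
open scoped Nat

lemma tendsto_poly_geom (K : ℕ) {r : ℝ} (h0 : 0 < r) (h1 : r < 1) :
    Tendsto (fun N : ℕ => (N + 1 : ℝ) ^ K * r ^ N) atTop (𝓝 0) := by
  have h := (tendsto_pow_const_mul_const_pow_of_abs_lt_one K (r := r)
    (by rwa [abs_of_pos h0])).comp (tendsto_add_atTop_nat 1)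
  have h2 := h.const_mul r⁻¹
  rw [mul_zero] at h2
  refine h2.congr fun N => ?_
  simp only [Function.comp]
  push_cast
  field_simp
  ring

variable {J : Type} [Fintype J] [DecidableEq J]
variable {V I : Type} [Fintype V] [DecidableEq V] [Fintype I] [DecidableEq I]

omit [DecidableEq J] [DecidableEq I] in
lemma exists_prod_model {ι : Type} (s : Finset ι) (M : ι → Model) (β : J → I × Bool ≃ V) :
    ∃ P : Model, P.Phi J = ∏ i ∈ s, (M i).Phi J ∧
      ∀ (N : ℕ) (π : J × I → Equiv.Perm (Fin N)), P.Z β π = ∏ i ∈ s, (M i).Z β π := by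
  classical
  induction s using Finset.induction_on with
  | empty => exact ⟨Model.one, by simp [Model.Phi_one], fun N π => by simp [Model.Z_one]⟩
  | insert a s ha ih =>
    obtain ⟨P, h1, h2⟩ := ih
    exact ⟨(M a).mul P, by rw [Model.Phi_mul, h1, prod_insert ha],
      fun N π => by rw [Model.Z_mul, h2, prod_insert ha]⟩

open Classical in
lemma exists_good {ι : Type} (s : Finset ι) (M : ι → Model) (hpos : ∀ i, 0 < (M i).Phi J)
    (β : J → I × Bool ≃ V) (Bad : ∀ N : ℕ, (J × I → Equiv.Perm (Fin N)) → Prop) {r : ℝ}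
    (hr0 : 0 < r) (hr1 : r < 1) (K : ℕ)
    (hBad : ∀ N : ℕ, 0 < N → Av (fun π => if Bad N π then (1 : ℝ) else 0) ≤ (N + 1 : ℝ) ^ K * r ^ N)
    {ε : ℝ} (hε : 0 < ε) :
    ∀ᶠ N : ℕ in atTop, ∃ π, ¬ Bad N π ∧ ∀ i ∈ s,
      |Real.log ((M i).Z β π) - N * Fintype.card V * Real.log ((M i).Phi J)| ≤ ε * N := by
  obtain ⟨P, hP1, hP2⟩ := exists_prod_model s M β
  set η : ℝ := ε / (#s + 1) with hη
  have hη0 : 0 < η := by positivity
  have hq0 : 0 < Real.exp (-η) := Real.exp_pos _
  have hq1 : Real.exp (-η) < 1 := Real.exp_lt_one_iff.2 (by linarith)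
  set K1 := Fintype.card P.T * Fintype.card J * Fintype.card V
  set K2 := 2 * Fintype.card (P.mul P).T * Fintype.card (J × I)
  set Ki : ι → ℕ := fun i => 2 * Fintype.card (M i).T * Fintype.card (J × I)
  have t1 : Tendsto (fun N : ℕ => 4 * ((N + 1 : ℝ) ^ (2 * K1 + K2 + K) * r ^ N +
      ∑ i ∈ s, (N + 1 : ℝ) ^ (2 * K1 + K2 + Ki i) * Real.exp (-η) ^ N)) atTop (𝓝 0) := by
    have := ((tendsto_poly_geom (2 * K1 + K2 + K) hr0 hr1).add
      (tendsto_finsetSum s fun i _ => tendsto_poly_geom (2 * K1 + K2 + Ki i) hq0 hq1)).const_mul 4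
    simpa using this
  have t2 := (tendsto_poly_geom K1 hq0 hq1).const_mul 2
  rw [mul_zero] at t2
  filter_upwards [t1.eventually (gt_mem_nhds zero_lt_one), t2.eventually (gt_mem_nhds zero_lt_one),
    eventually_gt_atTop 0] with N e1 e2 hN
  set A : ℝ := P.Phi J ^ (N * Fintype.card V) with hA
  have hPpos : 0 < P.Phi J := by rw [hP1]; exact prod_pos fun i _ => hpos i
  have hA0 : 0 < A := by positivity
  set C1 : ℝ := (N + 1 : ℝ) ^ K1 with hC1
  set C2 : ℝ := (N + 1 : ℝ) ^ K2 with hC2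
  have hC10 : 0 < C1 := by positivity
  have hC20 : 0 < C2 := by positivity
  have m1 : A ≤ C1 * Av (P.Z (N := N) β) := P.Av_Z_lower β
  have m2 : Av (fun π => P.Z (N := N) β π ^ 2) ≤ C2 * A ^ 2 := by
    have := (P.mul P).Av_Z_upper hN β
    rw [Model.Phi_mul, mul_pow, ← sq] at this
    refine le_trans (le_of_eq ?_) this
    congr 1
    funext π
    rw [Model.Z_mul, sq]
  let B : (J × I → Equiv.Perm (Fin N)) → Prop := fun π => Bad N π ∨ ∃ i ∈ s,
    Real.exp (η * N) * (M i).Phi J ^ (N * Fintype.card V) < (M i).Z β π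
  have m3 : Av (fun π => if B π then (1 : ℝ) else 0) ≤ (N + 1 : ℝ) ^ K * r ^ N +
      ∑ i ∈ s, (N + 1 : ℝ) ^ Ki i * Real.exp (-η) ^ N := by
    have hd : ∀ i, 0 < Real.exp (η * N) * (M i).Phi J ^ (N * Fintype.card V) := fun i =>
      mul_pos (Real.exp_pos _) (pow_pos (hpos i) _)
    calc _ ≤ Av (fun π => (if Bad N π then (1 : ℝ) else 0) + ∑ i ∈ s,
          (Real.exp (η * N) * (M i).Phi J ^ (N * Fintype.card V))⁻¹ * (M i).Z β π) := by
          refine Av_mono fun π => ?_
          have hs : ∀ i ∈ s, 0 ≤ (Real.exp (η * N) * (M i).Phi J ^ (N * Fintype.card V))⁻¹ *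
            (M i).Z β π := fun i _ => mul_nonneg (inv_nonneg.2 (hd i).le) ((M i).Z_nonneg β π)
          have hs' := sum_nonneg hs
          by_cases hb : Bad N π
          · rw [if_pos (Or.inl hb), if_pos hb]
            linarith
          · rw [if_neg hb, zero_add]
            split_ifs with hB
            · obtain ⟨i, hi, hlt⟩ := hB.resolve_left hb
              refine le_trans ?_ (single_le_sum hs hi)
              rw [← div_eq_inv_mul, le_div_iff₀ (hd i), one_mul]
              exact hlt.le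
            · exact hs'
      _ ≤ _ := by
          rw [Av_add, Av_sum]
          refine add_le_add (hBad N hN) (sum_le_sum fun i _ => ?_)
          rw [Av_mul, ← div_eq_inv_mul, div_le_iff₀ (hd i)]
          refine ((M i).Av_Z_upper hN β).trans (le_of_eq ?_)
          rw [← Real.exp_nat_mul, mul_assoc ((N + 1 : ℝ) ^ Ki i), ← mul_assoc (Real.exp _),
            ← Real.exp_add]
          simp [Ki, mul_comm]
  have key : ∃ π, ¬ B π ∧ A / (2 * C1) ≤ P.Z β π := by
    by_contra hcon
    push Not at hcon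
    have h1 : Av (P.Z (N := N) β) ≤ Av (fun π => A / (2 * C1) + ((4 * C1 * C2 * A)⁻¹ *
        P.Z β π ^ 2 + C1 * C2 * A * if B π then (1 : ℝ) else 0)) := by
      refine Av_mono fun π => ?_
      have h0 : 0 ≤ (4 * C1 * C2 * A)⁻¹ * P.Z β π ^ 2 := by positivity
      have h2 : 0 ≤ A / (2 * C1) := by positivity
      split_ifs with hB
      · have : P.Z β π ≤ (4 * C1 * C2 * A)⁻¹ * P.Z β π ^ 2 + C1 * C2 * A := by
          have hx : 0 < C1 * C2 * A := by positivity
          rw [show 4 * C1 * C2 * A = 4 * (C1 * C2 * A) by ring]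
          generalize C1 * C2 * A = x at hx
          rw [← sub_nonneg, show (4 * x)⁻¹ * P.Z β π ^ 2 + x - P.Z β π =
            (4 * x)⁻¹ * (P.Z β π - 2 * x) ^ 2 by field_simp; ring]
          positivity
        linarith
      · have := hcon π hB
        linarith
    rw [Av_add, Av_add, Av_const, Av_mul, Av_mul] at h1
    have h2 : (4 * C1 * C2 * A)⁻¹ * Av (fun π => P.Z (N := N) β π ^ 2) ≤ A / (4 * C1) := by
      refine (mul_le_mul_of_nonneg_left m2 (by positivity)).trans (le_of_eq ?_)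
      field_simp
    have h3 : 4 * (C1 ^ 2 * C2 * Av (fun π => if B π then (1 : ℝ) else 0)) < 1 := by
      refine lt_of_le_of_lt ?_ e1
      refine mul_le_mul_of_nonneg_left ?_ (by norm_num)
      refine (mul_le_mul_of_nonneg_left m3 (by positivity)).trans (le_of_eq ?_)
      rw [mul_add, mul_sum]
      congr 1
      · rw [hC1, hC2]; ring
      · exact sum_congr rfl fun i _ => by rw [hC1, hC2]; ring
    have h4 : A ≤ C1 * (A / (2 * C1) + (A / (4 * C1) +
        C1 * C2 * A * Av (fun π => if B π then (1 : ℝ) else 0))) :=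
      m1.trans (mul_le_mul_of_nonneg_left (by linarith) hC10.le)
    have h5 : C1 * (A / (2 * C1) + (A / (4 * C1) +
        C1 * C2 * A * Av (fun π => if B π then (1 : ℝ) else 0))) =
        A * (3 / 4 + C1 ^ 2 * C2 * Av (fun π => if B π then (1 : ℝ) else 0)) := by
      field_simp
      ring
    rw [h5] at h4
    nlinarith
  obtain ⟨π, hB, hW⟩ := key
  simp only [B, not_or, not_exists, not_and, not_lt] at hB
  refine ⟨π, hB.1, ?_⟩
  have hW0 : 0 < P.Z β π := lt_of_lt_of_le (by positivity) hW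
  have hZ : ∀ i ∈ s, 0 < (M i).Z β π := fun i hi => by
    refine lt_of_le_of_ne ((M i).Z_nonneg β π) fun h => ?_
    rw [hP2, prod_eq_zero hi h.symm] at hW0
    exact lt_irrefl _ hW0
  set L : ι → ℝ := fun i =>
    Real.log ((M i).Z β π) - N * Fintype.card V * Real.log ((M i).Phi J) with hL
  have u1 : ∀ i ∈ s, L i ≤ η * N := fun i hi => by
    have := Real.log_le_log (hZ i hi) (hB.2 i hi)
    rw [Real.log_mul (Real.exp_pos _).ne' (pow_pos (hpos i) _).ne', Real.log_exp, Real.log_pow] at this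
    push_cast at this
    simp only [hL]
    linarith
  have u2 : -(η * N) ≤ ∑ i ∈ s, L i := by
    have h1 : ∑ i ∈ s, L i = Real.log (P.Z β π) - Real.log A := by
      rw [hP2, hA, hP1, Real.log_pow, Real.log_prod (fun i hi => (hZ i hi).ne'),
        Real.log_prod (fun i _ => (hpos i).ne'), mul_sum, ← sum_sub_distrib]
      push_cast
      rfl
    have h2 := Real.log_le_log (by positivity) hW
    rw [Real.log_div hA0.ne' (by positivity)] at h2
    have h3 : Real.log (2 * C1) ≤ η * N := by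
      rw [Real.log_le_iff_le_exp (by positivity)]
      rw [← Real.exp_nat_mul, show (N : ℝ) * -η = -(η * N) by ring, Real.exp_neg, ← mul_assoc,
        ← div_eq_mul_inv, div_lt_one (Real.exp_pos _)] at e2
      exact e2.le
    linarith
  intro i hi
  have u3 : ∑ l ∈ s.erase i, L l ≤ #s * (η * N) := by
    refine (sum_le_sum fun l hl => u1 l (mem_of_mem_erase hl)).trans ?_
    rw [sum_const, nsmul_eq_mul]
    gcongr
    exact erase_subset _ _
  rw [← add_sum_erase s L hi] at u2
  have u4 : (#s + 1) * (η * N) = ε * N := by rw [hη]; field_simp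
  have u5 : 0 ≤ (#s : ℝ) * (η * N) := by positivity
  have := u1 i hi
  rw [abs_le]
  constructor <;> nlinarith

/-- number of monochromatic edges of the lift -/
def mono {N : ℕ} (β : J → I × Bool ≃ V) (π : J × I → Equiv.Perm (Fin N))
    (c : V → Fin N → Fin 2) : ℕ :=
  #{x : (J × I) × Fin N | c (β x.1.1 (x.1.2, false)) x.2 = c (β x.1.1 (x.1.2, true)) (π x.1 x.2)}

lemma one_perm {N : ℕ} (hN : 0 < N) (a b : Fin N → Fin 2) (γ : Fin 2) (hb : N ≤ 2 * cnt b γ) :
    (∑ p : Equiv.Perm (Fin N), ∏ u, if a u = b (p u) then (1 / 2 : ℝ) else 1) / N ! ≤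
      (N + 1 : ℝ) ^ 2 * (3 / 4) ^ cnt a γ := by
  have hN' : (0 : ℝ) < N := by exact_mod_cast hN
  have h := perm_comp_upper hN b (x := fun u t => if a u = t then (1 / 2 : ℝ) else 1)
    (fun u t => by split_ifs <;> norm_num)
  rw [Fintype.card_fin] at h
  refine h.trans (mul_le_mul_of_nonneg_left ?_ (by positivity))
  have h1 : (cnt b 0 : ℝ) + cnt b 1 = N := by
    have := sum_cnt b
    rw [Fin.sum_univ_two] at this
    exact_mod_cast this
  have hb' : (N : ℝ) ≤ 2 * cnt b γ := by exact_mod_cast hb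
  have h2 : (3 / 4 : ℝ) ^ cnt a γ = ∏ u, if a u = γ then (3 / 4 : ℝ) else 1 := by
    rw [← prod_filter, prod_const]
    rfl
  rw [h2]
  refine prod_le_prod (fun u _ => sum_nonneg fun t _ => by split_ifs <;> positivity) fun u _ => ?_
  rw [Fin.sum_univ_two, ← mul_div_assoc, ← mul_div_assoc, ← add_div, div_le_iff₀ hN']
  have p0 : (0 : ℝ) ≤ cnt b 0 := by positivity
  have p1 : (0 : ℝ) ≤ cnt b 1 := by positivity
  generalize a u = x
  fin_cases γ <;> fin_cases x <;> simp at hb' ⊢ <;> linarith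

open Classical in
lemma Av_bad {A : Type} [Fintype A] [DecidableEq A] (hV : Fintype.card V = 4)
    (γ : A → I × Bool ≃ V)
    (hγ : ∀ m : V → Fin 2, ∃ a i, m (γ a (i, false)) = m (γ a (i, true))) {N : ℕ} (hN : 0 < N) :
    Av (fun π : (A × Fin 30) × I → Equiv.Perm (Fin N) =>
      if ∃ c, mono (fun j : A × Fin 30 => γ j.1) π c ≤ N then (1 : ℝ) else 0) ≤
      (N + 1 : ℝ) ^ 60 * (1 / 2) ^ N := by
  have h1 : ∀ c : V → Fin N → Fin 2, Av (fun π : (A × Fin 30) × I → Equiv.Perm (Fin N) =>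
      (1 / 2 : ℝ) ^ mono (fun j : A × Fin 30 => γ j.1) π c) ≤
      (N + 1 : ℝ) ^ 60 * ((3 / 4) ^ 15) ^ N := by
    intro c
    have hm : ∀ v, ∃ t, N ≤ 2 * cnt (c v) t := fun v => by
      have := sum_cnt (c v)
      rw [Fin.sum_univ_two] at this
      by_cases h : N ≤ 2 * cnt (c v) 0
      · exact ⟨0, h⟩
      · exact ⟨1, by omega⟩
    choose m hm using hm
    obtain ⟨a, i, hai⟩ := hγ m
    let f : (A × Fin 30) × I → Equiv.Perm (Fin N) → ℝ := fun e p =>
      ∏ u, if c (γ e.1.1 (e.2, false)) u = c (γ e.1.1 (e.2, true)) (p u) then (1 / 2 : ℝ) else 1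
    have h2 : ∀ π : (A × Fin 30) × I → Equiv.Perm (Fin N),
        (1 / 2 : ℝ) ^ mono (fun j : A × Fin 30 => γ j.1) π c = ∏ e, f e (π e) := by
      intro π
      rw [mono, ← prod_const, prod_filter, Fintype.prod_prod_type]
    simp only [h2]
    rw [Av_prod]
    have hf0 : ∀ e p, 0 ≤ f e p := fun e p => prod_nonneg fun u _ => by split_ifs <;> norm_num
    have hf1 : ∀ e p, f e p ≤ 1 := fun e p => prod_le_one
      (fun u _ => by split_ifs <;> norm_num) fun u _ => by split_ifs <;> norm_num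
    have hfact : (0 : ℝ) < N ! := by positivity
    let emb : Fin 30 ↪ (A × Fin 30) × I := ⟨fun ρ => ((a, ρ), i), fun x y h => by simpa using h⟩
    calc _ ≤ ∏ e ∈ univ.map emb, (∑ p, f e p) / N ! := by
          refine prod_le_prod_of_subset_of_le_one (subset_univ _)
            (fun e _ => div_nonneg (sum_nonneg fun p _ => hf0 e p) hfact.le) fun e _ _ => ?_
          rw [div_le_one hfact]
          refine (sum_le_sum fun p _ => hf1 e p).trans ?_
          simp [Fintype.card_perm]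
      _ ≤ ∏ _ρ : Fin 30, (N + 1 : ℝ) ^ 2 * (3 / 4) ^ cnt (c (γ a (i, false))) (m (γ a (i, true))) := by
          rw [prod_map]
          exact prod_le_prod (fun e _ => div_nonneg (sum_nonneg fun p _ => hf0 _ p) hfact.le)
            fun ρ _ => one_perm hN _ _ _ (hm _)
      _ ≤ _ := by
          rw [prod_const, card_univ, Fintype.card_fin, mul_pow, ← pow_mul, ← pow_mul, ← pow_mul]
          refine mul_le_mul_of_nonneg_left ?_ (by positivity)
          refine pow_le_pow_of_le_one (by norm_num) (by norm_num) ?_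
          have := hm (γ a (i, false))
          rw [hai] at this
          omega
  calc _ ≤ Av (fun π : (A × Fin 30) × I → Equiv.Perm (Fin N) => 2 ^ N *
        ∑ c : V → Fin N → Fin 2, (1 / 2 : ℝ) ^ mono (fun j : A × Fin 30 => γ j.1) π c) := by
        refine Av_mono fun π => ?_
        split_ifs with h
        · obtain ⟨c, hc⟩ := h
          have h2 := single_le_sum (f := fun c : V → Fin N → Fin 2 =>
            (1 / 2 : ℝ) ^ mono (fun j : A × Fin 30 => γ j.1) π c) (fun c _ => by positivity)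
            (mem_univ c)
          have h3 : (1 / 2 : ℝ) ^ N ≤ (1 / 2 : ℝ) ^ mono (fun j : A × Fin 30 => γ j.1) π c :=
            pow_le_pow_of_le_one (by norm_num) (by norm_num) hc
          calc (1 : ℝ) = 2 ^ N * (1 / 2) ^ N := by rw [← mul_pow]; norm_num
            _ ≤ _ := by gcongr; exact h3.trans h2
        · positivity
    _ ≤ 2 ^ N * ∑ _c : V → Fin N → Fin 2, (N + 1 : ℝ) ^ 60 * ((3 / 4) ^ 15) ^ N := by
        rw [Av_mul, Av_sum]
        gcongr with c
        exact h1 c
    _ = (N + 1 : ℝ) ^ 60 * (32 * (3 / 4) ^ 15) ^ N := by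
        simp only [sum_const, card_univ, Fintype.card_pi, Fintype.card_fin, prod_const, hV,
          nsmul_eq_mul]
        push_cast
        have : (32 : ℝ) ^ N = 2 ^ N * (2 ^ N) ^ 4 := by
          rw [← pow_succ', ← pow_mul, mul_comm, pow_mul]
          norm_num
        rw [mul_pow, this]
        ring
    _ ≤ _ := by gcongr; norm_num

end Pool.Agent.P.MP_4503fd_co
end

-- part Pool.Agent.P.MP_4503fd_co.Energy
section

/-! Energies and free energies of labelled graphs. -/

namespace Pool.Agent.P.MP_4503fd_co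

open MeasureTheory Filter Topology Finset
open scoped NNReal ENNReal

abbrev UI := unitInterval
abbrev TF := C(UI, ℝ) × C(UI × UI, ℝ)
abbrev XX := FiniteMeasure UI × FiniteMeasure (UI × UI)

noncomputable def pair (f : TF) (x : XX) : ℝ :=
  ∫ t, f.1 t ∂(x.1 : Measure UI) + ∫ t, f.2 t ∂(x.2 : Measure (UI × UI))

lemma continuous_pair (f : TF) : Continuous (pair f) :=
  ((FiniteMeasure.continuous_integral_continuousMap f.1).comp continuous_fst).add
    ((FiniteMeasure.continuous_integral_continuousMap f.2).comp continuous_snd)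

variable {V : Type} [Fintype V]

open Classical in
noncomputable def en {S : Type} (G : SimpleGraph V) (a : S → ℝ) (b : S × S → ℝ) (c : V → S) : ℝ :=
  ∑ u, a (c u) + ∑ p : V × V with G.Adj p.1 p.2, b (c p.1, c p.2)

lemma integral_smul_sum_pt {X ι : Type} [MeasurableSpace X] [TopologicalSpace X] [BorelSpace X]
    [T2Space X] (f : X → ℝ) (r : ℝ≥0) (s : Finset ι) (x : ι → X) :
    ∫ t, f t ∂((r • ∑ i ∈ s, pt (x i) : FiniteMeasure X) : Measure X) = r * ∑ i ∈ s, f (x i) := by
  rw [FiniteMeasure.toMeasure_smul, FiniteMeasure.toMeasure_sum, integral_smul_nnreal_measure,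
    integral_finsetSum_measure (μ := fun i => (pt (x i) : Measure X))
      (fun i _ => integrable_dirac (by simp))]
  simp [pt, NNReal.smul_def]

lemma pair_emp (G : SimpleGraph V) (f : TF) (σ : V → UI) :
    pair f (emp G σ) = (Fintype.card V : ℝ)⁻¹ * en G f.1 f.2 σ := by
  unfold pair emp en
  rw [integral_smul_sum_pt, integral_smul_sum_pt, mul_add]
  simp

lemma continuous_en (G : SimpleGraph V) (f : TF) : Continuous (en G f.1 f.2) := by
  unfold en
  fun_prop

lemma continuous_emp (G : SimpleGraph V) : Continuous (emp G) := by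
  refine Continuous.prodMk ?_ ?_
  · rw [FiniteMeasure.continuous_iff_forall_continuousMap_continuous_integral]
    intro f
    simp only [integral_smul_sum_pt]
    fun_prop
  · rw [FiniteMeasure.continuous_iff_forall_continuousMap_continuous_integral]
    intro f
    simp only [integral_smul_sum_pt]
    fun_prop

open Classical in
def Sparse (G : SimpleGraph V) (D : ℕ) : Prop :=
  #{p : V × V | G.Adj p.1 p.2} ≤ D * Fintype.card V

lemma sparse_of_degree {G : SimpleGraph V} {D : ℕ} (h : ∀ v, (G.neighborSet v).ncard ≤ D) :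
    Sparse G D := by
  classical
  unfold Sparse
  rw [card_eq_sum_card_fiberwise (f := Prod.fst) (t := univ) (by simp), mul_comm, ← smul_eq_mul,
    ← card_univ, ← sum_const]
  refine sum_le_sum fun v _ => le_trans ?_ (h v)
  rw [Set.ncard_eq_toFinset_card']
  refine card_le_card_of_injOn Prod.snd ?_ ?_
  · intro p hp
    simp only [coe_filter, mem_filter, mem_univ, true_and, Set.mem_ofPred_eq] at hp
    simpa [← hp.2] using hp.1
  · intro p hp q hq hpq
    simp only [coe_filter, mem_filter, mem_univ, true_and, Set.mem_ofPred_eq] at hp hq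
    exact Prod.ext (hp.2.trans hq.2.symm) hpq

lemma mass_smul_sum_pt {X ι : Type} [MeasurableSpace X] (r : ℝ≥0) (s : Finset ι) (x : ι → X) :
    (r • ∑ i ∈ s, pt (x i) : FiniteMeasure X).mass = r * #s := by
  apply ENNReal.coe_injective
  rw [FiniteMeasure.ennreal_mass, FiniteMeasure.toMeasure_smul, FiniteMeasure.toMeasure_sum]
  simp [pt]
  rfl

lemma emp_mem {G : SimpleGraph V} {D : ℕ} (h : Sparse G D) (σ : V → UI) :
    (emp G σ).1.mass ≤ 1 ∧ (emp G σ).2.mass ≤ D := by
  unfold emp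
  simp only [mass_smul_sum_pt, card_univ]
  refine ⟨inv_mul_le_one, ?_⟩
  rcases Nat.eq_zero_or_pos (Fintype.card V) with h0 | h0
  · simp [h0]
  · rw [inv_mul_le_iff₀ (by exact_mod_cast h0), mul_comm]
    exact_mod_cast h

lemma en_sub_le {S S' : Type} {G : SimpleGraph V} {D : ℕ} (h : Sparse G D) {a : S → ℝ}
    {b : S × S → ℝ} {a' : S' → ℝ} {b' : S' × S' → ℝ} {c : V → S} {c' : V → S'} {ε : ℝ}
    (hε : 0 ≤ ε) (h1 : ∀ u, |a (c u) - a' (c' u)| ≤ ε)
    (h2 : ∀ u v, |b (c u, c v) - b' (c' u, c' v)| ≤ ε) :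
    |en G a b c - en G a' b' c'| ≤ Fintype.card V * ((1 + D) * ε) := by
  classical
  unfold en
  rw [add_sub_add_comm, ← sum_sub_distrib, ← sum_sub_distrib]
  refine (abs_add_le _ _).trans ?_
  have e1 := (abs_sum_le_sum_abs _ univ).trans (sum_le_sum fun u _ => h1 u)
  have e2 := (abs_sum_le_sum_abs (fun p : V × V => b (c p.1, c p.2) - b' (c' p.1, c' p.2))
    {p : V × V | G.Adj p.1 p.2}).trans (sum_le_sum fun p _ => h2 p.1 p.2)
  rw [sum_const, nsmul_eq_mul] at e1 e2
  rw [card_univ] at e1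
  have e3 : (#{p : V × V | G.Adj p.1 p.2} : ℝ) ≤ D * Fintype.card V := by exact_mod_cast h
  have := mul_le_mul_of_nonneg_right e3 hε
  linarith

lemma log_integral_exp_le {Ω : Type} [MeasurableSpace Ω] {μ : Measure Ω} [IsProbabilityMeasure μ]
    {h h' : Ω → ℝ} (i1 : Integrable (fun σ => Real.exp (h σ)) μ)
    (i2 : Integrable (fun σ => Real.exp (h' σ)) μ) {t : ℝ} (ht : ∀ σ, h σ ≤ h' σ + t) :
    Real.log (∫ σ, Real.exp (h σ) ∂μ) ≤ Real.log (∫ σ, Real.exp (h' σ) ∂μ) + t := by
  rw [← Real.log_exp t, ← Real.log_mul (integral_exp_pos i2).ne' (Real.exp_pos t).ne',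
    ← integral_mul_const]
  refine Real.log_le_log (integral_exp_pos i1) (integral_mono i1 (i2.mul_const _) fun σ => ?_)
  simp only [← Real.exp_add]
  exact Real.exp_le_exp.2 (ht σ)

lemma abs_log_integral_exp {Ω : Type} [MeasurableSpace Ω] {μ : Measure Ω} [IsProbabilityMeasure μ]
    {h h' : Ω → ℝ} (i1 : Integrable (fun σ => Real.exp (h σ)) μ)
    (i2 : Integrable (fun σ => Real.exp (h' σ)) μ) {t : ℝ} (ht : ∀ σ, |h σ - h' σ| ≤ t) :
    |Real.log (∫ σ, Real.exp (h σ) ∂μ) - Real.log (∫ σ, Real.exp (h' σ) ∂μ)| ≤ t := by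
  have e1 := log_integral_exp_le i1 i2 (t := t) fun σ => by linarith [(abs_le.1 (ht σ)).2]
  have e2 := log_integral_exp_le i2 i1 (t := t) fun σ => by linarith [(abs_le.1 (ht σ)).1]
  rw [abs_le]
  constructor <;> linarith

lemma integrable_exp_en (G : SimpleGraph V) (f : TF) :
    Integrable (fun σ : V → UI => Real.exp (en G f.1 f.2 σ)) :=
  (Real.continuous_exp.comp (continuous_en G f)).integrable_of_hasCompactSupport
    (HasCompactSupport.of_compactSpace _)

/-- free energy -/
noncomputable def Lam (G : SimpleGraph V) (f : TF) : ℝ :=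
  (Fintype.card V : ℝ)⁻¹ * Real.log (∫ σ : V → UI, Real.exp (en G f.1 f.2 σ))

lemma abs_inv_mul_le {n : ℕ} {x y t : ℝ} (ht : 0 ≤ t) (h : |x - y| ≤ n * t) :
    |(n : ℝ)⁻¹ * x - (n : ℝ)⁻¹ * y| ≤ t := by
  rcases Nat.eq_zero_or_pos n with h0 | h0
  · simp [h0, ht]
  · have : (0 : ℝ) < n := by exact_mod_cast h0
    rw [← mul_sub, abs_mul, abs_of_pos (inv_pos.2 this), inv_mul_le_iff₀ this]
    exact h

lemma en_lip {G : SimpleGraph V} {D : ℕ} (h : Sparse G D) (f g : TF) (σ : V → UI) :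
    |en G f.1 f.2 σ - en G g.1 g.2 σ| ≤ Fintype.card V * ((1 + D) * dist f g) := by
  refine en_sub_le h dist_nonneg (fun u => ?_) fun u v => ?_
  · exact (ContinuousMap.dist_apply_le_dist (f := f.1) (g := g.1) (σ u)).trans (le_max_left _ _)
  · exact (ContinuousMap.dist_apply_le_dist (f := f.2) (g := g.2) (σ u, σ v)).trans
      (le_max_right _ _)

lemma Lam_lip {G : SimpleGraph V} {D : ℕ} (h : Sparse G D) (f g : TF) :
    |Lam G f - Lam G g| ≤ (1 + D) * dist f g :=
  abs_inv_mul_le (by positivity)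
    (abs_log_integral_exp (integrable_exp_en G f) (integrable_exp_en G g) (en_lip h f g))

lemma Lam_zero (G : SimpleGraph V) : Lam G 0 = 0 := by
  simp [Lam, en]

/-! ### disjoint copies -/

def copies (m : ℕ) (F : SimpleGraph V) : SimpleGraph (Fin m × V) where
  Adj p q := p.1 = q.1 ∧ F.Adj p.2 q.2
  symm := ⟨fun _ _ h => ⟨h.1.symm, h.2.symm⟩⟩
  loopless := ⟨fun _ h => h.2.ne rfl⟩

lemma en_copies {S : Type} (m : ℕ) (F : SimpleGraph V) (a : S → ℝ) (b : S × S → ℝ)
    (c : Fin m × V → S) : en (copies m F) a b c = ∑ i, en F a b (fun w => c (i, w)) := by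
  classical
  unfold en
  rw [sum_add_distrib, Fintype.sum_prod_type]
  congr 1
  rw [sum_filter, Fintype.sum_prod_type, Fintype.sum_prod_type]
  refine sum_congr rfl fun i _ => ?_
  rw [sum_filter, Fintype.sum_prod_type]
  refine sum_congr rfl fun u _ => ?_
  rw [Fintype.sum_prod_type, sum_eq_single i]
  · simp [copies]
  · intro j _ hj
    simp [copies, hj.symm]
  · simp

omit [Fintype V] in
lemma degree_copies (m : ℕ) (F : SimpleGraph V) (p : Fin m × V) :
    ((copies m F).neighborSet p).ncard = (F.neighborSet p.2).ncard := by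
  rw [← Set.ncard_image_of_injective (F.neighborSet p.2) (f := fun w => (p.1, w))
    (fun x y h => by simpa using h)]
  congr 1
  ext ⟨i, w⟩
  simp [copies]
  tauto

lemma curry_mp (m : ℕ) : MeasurePreserving (MeasurableEquiv.curry (Fin m) V UI) volume volume := by
  refine ⟨(MeasurableEquiv.curry (Fin m) V UI).measurable, ?_⟩
  have := Measure.infinitePi_map_curry (fun (_ : Fin m) (_ : V) => (volume : Measure UI))
  simp only [Measure.infinitePi_eq_pi] at this
  exact this

lemma Lam_copies {m : ℕ} (hm : 0 < m) (F : SimpleGraph V) (f : TF) :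
    Lam (copies m F) f = Lam F f := by
  unfold Lam
  simp only [en_copies, Real.exp_sum]
  have := (curry_mp (V := V) m).integral_comp'
    (fun τ : Fin m → V → UI => ∏ i, Real.exp (en F f.1 f.2 (τ i)))
  rw [integral_fintype_prod_volume_eq_pow (fun σ : V → UI => Real.exp (en F f.1 f.2 σ))] at this
  erw [this]
  have hm' : (m : ℝ) ≠ 0 := by positivity
  simp only [Real.log_pow, Fintype.card_prod, Fintype.card_fin]
  push_cast
  rw [mul_inv]
  field_simp

lemma prob_copies (m : ℕ) (A : Fin m → Set (V → UI)) :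
    volume {σ : Fin m × V → UI | ∀ i, (fun w => σ (i, w)) ∈ A i} = ∏ i, volume (A i) := by
  rw [← volume_pi_pi, ← (curry_mp (V := V) m).measure_preimage_equiv]
  congr 1
  ext σ
  simp
  rfl

/-! ### discretisation of the labels -/

noncomputable def kap (k : ℕ) (t : UI) : Fin (k + 2) :=
  ⟨⌊(k + 1 : ℝ) * t⌋₊, by
    have : (k + 1 : ℝ) * t ≤ ((k + 1 : ℕ) : ℝ) := by
      push_cast
      exact mul_le_of_le_one_right (by positivity) t.2.2
    have := Nat.floor_le_of_le this
    omega⟩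

noncomputable def rep (k : ℕ) (i : Fin (k + 2)) : UI :=
  ⟨(i : ℕ) / (k + 1 : ℝ), by positivity, by
    rw [div_le_one (by positivity)]
    have : (i : ℕ) ≤ k + 1 := by omega
    exact_mod_cast this⟩

lemma dist_rep_kap (k : ℕ) (t : UI) : dist t (rep k (kap k t)) ≤ 1 / (k + 1 : ℝ) := by
  have hk : (0 : ℝ) < k + 1 := by positivity
  have h0 : 0 ≤ (k + 1 : ℝ) * t := mul_nonneg hk.le t.2.1
  have h1 := Nat.floor_le h0
  have h2 := Nat.lt_floor_add_one ((k + 1 : ℝ) * t)
  change |(t : ℝ) - (⌊(k + 1 : ℝ) * t⌋₊ : ℝ) / (k + 1 : ℝ)| ≤ _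
  rw [show (t : ℝ) - (⌊(k + 1 : ℝ) * t⌋₊ : ℝ) / (k + 1 : ℝ) =
    ((k + 1 : ℝ) * t - ⌊(k + 1 : ℝ) * t⌋₊) / (k + 1) by field_simp, abs_div, abs_of_pos hk]
  gcongr
  rw [abs_le]
  constructor <;> linarith

lemma measurable_kap (k : ℕ) : Measurable (kap k) := by
  refine measurable_to_countable' fun i => ?_
  have : Measurable fun t : UI => ⌊(k + 1 : ℝ) * t⌋₊ := Nat.measurable_floor.comp (by fun_prop)
  convert this (measurableSet_singleton (i : ℕ)) using 1
  ext t
  simp [kap, Fin.ext_iff]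

noncomputable def wt (k : ℕ) (i : Fin (k + 2)) : ℝ := volume.real (kap k ⁻¹' {i})

lemma integral_disc [DecidableEq V] (k : ℕ) (g : (V → Fin (k + 2)) → ℝ) :
    ∫ σ : V → UI, g (fun v => kap k (σ v)) = ∑ c, (∏ v, wt k (c v)) * g c := by
  have hm : Measurable fun (σ : V → UI) v => kap k (σ v) :=
    measurable_pi_lambda _ fun v => (measurable_kap k).comp (measurable_pi_apply v)
  rw [← integral_map hm.aemeasurable (measurable_of_countable g).aestronglyMeasurable,
    integral_fintype Integrable.of_finite]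
  refine sum_congr rfl fun c _ => ?_
  rw [smul_eq_mul, map_measureReal_apply hm (measurableSet_singleton c)]
  congr 1
  have : (fun (σ : V → UI) v => kap k (σ v)) ⁻¹' {c} = Set.univ.pi fun v => kap k ⁻¹' {c v} := by
    ext σ
    simp [funext_iff]
  rw [this, Measure.real, volume_pi_pi, ENNReal.toReal_prod]
  rfl

noncomputable def ZD [DecidableEq V] (G : SimpleGraph V) (k : ℕ) (f : TF) : ℝ :=
  ∑ c : V → Fin (k + 2), (∏ v, wt k (c v)) *
    Real.exp (en G (fun i => f.1 (rep k i)) (fun p => f.2 (rep k p.1, rep k p.2)) c)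

lemma Lam_disc (f : TF) {ε : ℝ} (hε : 0 < ε) : ∃ k : ℕ, ∀ (V : Type) [Fintype V] [DecidableEq V]
    (G : SimpleGraph V) (D : ℕ), Sparse G D →
      |Lam G f - (Fintype.card V : ℝ)⁻¹ * Real.log (ZD G k f)| ≤ (1 + D) * ε := by
  obtain ⟨δ1, h1, H1⟩ := Metric.uniformContinuous_iff.1
    (CompactSpace.uniformContinuous_of_continuous f.1.continuous) ε hε
  obtain ⟨δ2, h2, H2⟩ := Metric.uniformContinuous_iff.1
    (CompactSpace.uniformContinuous_of_continuous f.2.continuous) ε hε
  obtain ⟨k, hk⟩ := exists_nat_one_div_lt (lt_min h1 h2)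
  refine ⟨k, fun V _ _ G D hG => abs_inv_mul_le (by positivity) ?_⟩
  have hm : Measurable fun (σ : V → UI) v => kap k (σ v) :=
    measurable_pi_lambda _ fun v => (measurable_kap k).comp (measurable_pi_apply v)
  rw [ZD, ← integral_disc k (fun c =>
    Real.exp (en G (fun i => f.1 (rep k i)) (fun p => f.2 (rep k p.1, rep k p.2)) c))]
  refine abs_log_integral_exp (integrable_exp_en G f) ?_ fun σ => ?_
  · exact (integrable_map_measure (measurable_of_countable _).aestronglyMeasurable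
      hm.aemeasurable).1 (Integrable.of_finite (f := fun c =>
        Real.exp (en G (fun i => f.1 (rep k i)) (fun p => f.2 (rep k p.1, rep k p.2)) c)))
  · have hd := fun t => (dist_rep_kap k t).trans_lt hk
    refine en_sub_le hG hε.le (fun u => (H1 ((hd _).trans_le (min_le_left _ _))).le) fun u v =>
      (H2 ?_).le
    exact max_lt ((hd _).trans_le (min_le_right _ _)) ((hd _).trans_le (min_le_right _ _))

lemma exists_wt_pos (k : ℕ) : ∃ i, 0 < wt k i := by
  have := integral_disc (V := Unit) k (fun _ => 1)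
  by_contra h
  push Not at h
  have h0 : ∀ i, wt k i = 0 := fun i => le_antisymm (h i) measureReal_nonneg
  simp [h0] at this

end Pool.Agent.P.MP_4503fd_co
end

-- part Pool.Agent.P.MP_4503fd_co.Lift
section

/-! Subdivided lifts: their discretised partition functions are completely positive models. -/

namespace Pool.Agent.P.MP_4503fd_co

open Finset Filter Topology

def subdiv {A E : Type} (L R : E → A) : SimpleGraph (A ⊕ E) where
  Adj
    | .inl a, .inr e => a = L e ∨ a = R e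
    | .inr e, .inl a => a = L e ∨ a = R e
    | _, _ => False
  symm := ⟨by rintro (a | a) (b | b) h <;> exact h⟩
  loopless := ⟨by rintro (a | a) h <;> exact h⟩

section

variable {A E : Type} {L R : E → A}

@[simp] lemma subdiv_ll (a b : A) : (subdiv L R).Adj (.inl a) (.inl b) ↔ False := Iff.rfl
@[simp] lemma subdiv_rr (a b : E) : (subdiv L R).Adj (.inr a) (.inr b) ↔ False := Iff.rfl
@[simp] lemma subdiv_lr (a : A) (e : E) :
    (subdiv L R).Adj (.inl a) (.inr e) ↔ a = L e ∨ a = R e := Iff.rfl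
@[simp] lemma subdiv_rl (a : A) (e : E) :
    (subdiv L R).Adj (.inr e) (.inl a) ↔ a = L e ∨ a = R e := Iff.rfl

variable [Fintype A] [Fintype E]

lemma en_subdiv {S : Type} (h : ∀ e, L e ≠ R e) (a : S → ℝ) (b : S × S → ℝ) (c : A ⊕ E → S) :
    en (subdiv L R) a b c = ∑ x, a (c (.inl x)) + ∑ e, (a (c (.inr e)) +
      ((b (c (.inl (L e)), c (.inr e)) + b (c (.inr e), c (.inl (L e)))) +
       (b (c (.inl (R e)), c (.inr e)) + b (c (.inr e), c (.inl (R e)))))) := by
  classical
  have key : ∀ (e : E) (g : A → ℝ), (∑ x, if x = L e ∨ x = R e then g x else 0) =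
      g (L e) + g (R e) := fun e g => by
    rw [← sum_filter, show (univ.filter fun x => x = L e ∨ x = R e) = {L e, R e} by ext; simp,
      sum_pair (h e)]
  unfold en
  rw [sum_filter, Fintype.sum_prod_type, Fintype.sum_sum_type, Fintype.sum_sum_type]
  simp only [Fintype.sum_sum_type, subdiv_ll, subdiv_rr, subdiv_lr, subdiv_rl, if_false,
    sum_const_zero, zero_add, add_zero]
  rw [sum_comm (s := (univ : Finset A))]
  simp only [key, sum_add_distrib]
  ring

end

noncomputable abbrev model (k : ℕ) (f : TF) : Model where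
  S := Fin (k + 2)
  T := Fin (k + 2)
  w := fun s => wt k s * Real.exp (f.1 (rep k s))
  ph := fun s t => √(wt k t * Real.exp (f.1 (rep k t))) *
    Real.exp (f.2 (rep k s, rep k t) + f.2 (rep k t, rep k s))
  hw := fun _ => mul_nonneg MeasureTheory.measureReal_nonneg (Real.exp_pos _).le
  hph := fun _ _ => by positivity

lemma model_pos (J : Type) [Fintype J] (k : ℕ) (f : TF) : 0 < (model k f).Phi J := by
  obtain ⟨t, ht⟩ := exists_wt_pos k
  let M := model k f
  let g : J → Fin (k + 2) → ℝ := fun _ s => if s = t then 1 else 0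
  have hg : Adm g := fun j => ⟨fun s => by simp only [g]; split_ifs <;> norm_num, by simp [g]⟩
  refine lt_of_lt_of_le ?_ (M.F_le hg)
  refine sum_pos' (fun s _ => mul_nonneg (M.hw s) (prod_nonneg fun j _ => sum_nonneg fun t _ =>
    mul_nonneg (M.hph s t) ((hg j).1 t))) ⟨t, mem_univ _, ?_⟩
  refine mul_pos (mul_pos ht (Real.exp_pos _)) (prod_pos fun j _ => ?_)
  simp only [g, mul_ite, mul_one, mul_zero, sum_ite_eq', mem_univ, if_true]
  exact mul_pos (Real.sqrt_pos.2 (mul_pos ht (Real.exp_pos _))) (Real.exp_pos _)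

lemma ZD_subdiv {A E : Type} [Fintype A] [Fintype E] [DecidableEq A] [DecidableEq E]
    {L R : E → A} (h : ∀ e, L e ≠ R e) (k : ℕ) (f : TF) :
    ZD (subdiv L R) k f = ∑ σ : A → Fin (k + 2), (∏ x, (model k f).w (σ x)) *
      ∏ e, ∑ t : Fin (k + 2), (model k f).ph (σ (L e)) t * (model k f).ph (σ (R e)) t := by
  unfold ZD
  rw [← (Equiv.sumArrowEquivProdArrow A E (Fin (k + 2))).symm.sum_comp, Fintype.sum_prod_type]
  refine sum_congr rfl fun σ _ => ?_
  rw [Fintype.prod_sum, mul_sum]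
  refine sum_congr rfl fun τ _ => ?_
  rw [en_subdiv h, Fintype.prod_sum_type, Real.exp_add, Real.exp_sum, Real.exp_sum,
    mul_mul_mul_comm, ← prod_mul_distrib, ← prod_mul_distrib]
  congr 1
  refine prod_congr rfl fun e _ => ?_
  simp only [Equiv.sumArrowEquivProdArrow_symm_apply_inl,
    Equiv.sumArrowEquivProdArrow_symm_apply_inr]
  rw [mul_mul_mul_comm, Real.mul_self_sqrt
    ((model k f).hw (τ e)), Real.exp_add, Real.exp_add, mul_assoc]

variable {J V I : Type} {N : ℕ}

def Lft (β : J → I × Bool ≃ V) (e : (J × I) × Fin N) : V × Fin N := (β e.1.1 (e.1.2, false), e.2)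

def Rgt (β : J → I × Bool ≃ V) (π : J × I → Equiv.Perm (Fin N)) (e : (J × I) × Fin N) :
    V × Fin N := (β e.1.1 (e.1.2, true), π e.1 e.2)

def liftG (β : J → I × Bool ≃ V) (π : J × I → Equiv.Perm (Fin N)) :
    SimpleGraph ((V × Fin N) ⊕ ((J × I) × Fin N)) := subdiv (Lft β) (Rgt β π)

lemma Lft_ne (β : J → I × Bool ≃ V) (π : J × I → Equiv.Perm (Fin N)) (e : (J × I) × Fin N) :
    Lft β e ≠ Rgt β π e := by
  simp [Lft, Rgt]

lemma ZD_liftG [Fintype J] [DecidableEq J] [Fintype V] [DecidableEq V] [Fintype I] [DecidableEq I]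
    (β : J → I × Bool ≃ V) (π : J × I → Equiv.Perm (Fin N)) (k : ℕ) (f : TF) :
    ZD (liftG β π) k f = (model k f).Z β π := by
  rw [liftG, ZD_subdiv (Lft_ne β π), Model.Z]
  refine Fintype.sum_equiv (Equiv.curry V (Fin N) (Fin (k + 2))) _ _ fun σ => ?_
  rw [Fintype.prod_prod_type, Fintype.prod_prod_type]
  rfl

lemma degree_liftG [Fintype J] [Nonempty J] (hJ : 2 ≤ Fintype.card J) (β : J → I × Bool ≃ V)
    (π : J × I → Equiv.Perm (Fin N)) (x : (V × Fin N) ⊕ ((J × I) × Fin N)) :
    ((liftG β π).neighborSet x).ncard ≤ Fintype.card J := by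
  rcases x with ⟨v, y⟩ | e
  · rw [← Nat.card_eq_fintype_card, ← Set.ncard_univ]
    refine Set.ncard_le_ncard_of_injOn
      (Sum.elim (fun _ => Classical.arbitrary J) (fun e => e.1.1)) (fun _ _ => trivial) ?_
    rintro (a | ⟨⟨j, i⟩, u⟩) ha (b | ⟨⟨j', i'⟩, u'⟩) hb hab
    · exact ha.elim
    · exact ha.elim
    · exact hb.elim
    obtain rfl : j = j' := hab
    simp only [liftG, SimpleGraph.mem_neighborSet, subdiv_lr, Lft, Rgt, Prod.mk.injEq] at ha hb
    rcases ha with ⟨rfl, rfl⟩ | ⟨rfl, rfl⟩ <;> rcases hb with ⟨h1, h2⟩ | ⟨h1, h2⟩ <;>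
      simp only [EmbeddingLike.apply_eq_iff_eq, Prod.mk.injEq] at h1
    · rw [h1.1, h2]
    · simp at h1
    · simp at h1
    · obtain rfl := h1.1
      rw [(π (j, i)).injective h2]
  · refine le_trans ?_ hJ
    refine (Set.ncard_le_ncard (t := {.inl (Lft β e), .inl (Rgt β π e)}) ?_).trans
      (Set.ncard_pair (by simpa using Lft_ne β π e)).le
    rintro (a | a) ha
    · simpa [liftG] using ha
    · exact ha.elim

end Pool.Agent.P.MP_4503fd_co
end

-- part Pool.Agent.P.MP_4503fd_co.LDP1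
section

/-! Large deviations: upper bound and tools for the lower bound. -/

namespace Pool.Agent.P.MP_4503fd_co

open MeasureTheory Filter Topology Finset
open scoped NNReal ENNReal

lemma integral_exp_en {V : Type} [Fintype V] (hV : 0 < Fintype.card V) (G : SimpleGraph V)
    (f : TF) : ∫ σ : V → UI, Real.exp (en G f.1 f.2 σ) = Real.exp (Fintype.card V * Lam G f) := by
  have : (Fintype.card V : ℝ) ≠ 0 := by positivity
  rw [Lam, mul_inv_cancel_left₀ this, Real.exp_log (integral_exp_pos (integrable_exp_en G f))]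

lemma en_eq {V : Type} [Fintype V] (hV : 0 < Fintype.card V) (G : SimpleGraph V)
    (f : TF) (σ : V → UI) : en G f.1 f.2 σ = Fintype.card V * pair f (emp G σ) := by
  have : (Fintype.card V : ℝ) ≠ 0 := by positivity
  rw [pair_emp, mul_inv_cancel_left₀ this]

lemma markov {V : Type} [Fintype V] (hV : 0 < Fintype.card V) (G : SimpleGraph V)
    (f : TF) (a : ℝ) : volume.real {σ | a < pair f (emp G σ)} ≤
      Real.exp (Fintype.card V * (Lam G f - a)) := by
  have h := mul_meas_ge_le_integral_of_nonneg (μ := (volume : Measure (V → UI)))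
    (f := fun σ => Real.exp (en G f.1 f.2 σ)) (Eventually.of_forall fun σ => (Real.exp_pos _).le)
    (integrable_exp_en G f) (Real.exp (Fintype.card V * a))
  rw [integral_exp_en hV] at h
  rw [mul_sub, Real.exp_sub, le_div_iff₀' (Real.exp_pos _)]
  refine le_trans (mul_le_mul_of_nonneg_left (measureReal_mono fun σ hσ => ?_)
    (Real.exp_pos _).le) h
  simp only [Set.mem_ofPred_eq, Real.exp_le_exp, en_eq hV] at hσ ⊢
  exact mul_le_mul_of_nonneg_left hσ.le (by positivity)

lemma eventually_le_exp {θ : ℕ → ℕ} (hθ : Tendsto θ atTop atTop) (c : ℝ) {ε : ℝ} (hε : 0 < ε) :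
    ∀ᶠ n in atTop, c ≤ Real.exp (θ n * ε) :=
  (Real.tendsto_exp_atTop.comp
    ((tendsto_natCast_atTop_atTop.comp hθ).atTop_mul_const hε)).eventually_ge_atTop c

lemma upper {V : ℕ → Type} [∀ n, Fintype (V n)] {G : ∀ n, SimpleGraph (V n)} {D : ℕ}
    (hS : ∀ n, Sparse (G n) D) (hN : Tendsto (fun n => Fintype.card (V n)) atTop atTop)
    {L : TF → ℝ} (hL : ∀ f, Tendsto (fun n => Lam (G n) f) atTop (𝓝 (L f)))
    {C : Set XX} (hC : IsClosed C) {α : ℝ} (hα : ∀ x ∈ C, ∃ f, α < pair f x - L f) {ε : ℝ}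
    (hε : 0 < ε) : ∀ᶠ n in atTop, volume.real {σ | emp (G n) σ ∈ C} ≤
      Real.exp (Fintype.card (V n) * (ε - α)) := by
  have hK := ((isCompact_setOfPred_finiteMeasure_le_of_compactSpace UI 1).prod
    (isCompact_setOfPred_finiteMeasure_le_of_compactSpace (UI × UI) D)).inter_left hC
  obtain ⟨t, ht⟩ := hK.elim_finite_subcover (fun f : TF => {y | α + L f < pair f y})
    (fun f => isOpen_lt continuous_const (continuous_pair f)) (fun x hx => by
      obtain ⟨f, hf⟩ := hα x hx.1
      exact Set.mem_iUnion.2 ⟨f, by simp only [Set.mem_ofPred_eq]; linarith⟩)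
  have e1 : ∀ᶠ n in atTop, ∀ f ∈ t, Lam (G n) f < L f + ε / 2 :=
    (eventually_all_finset t).2 fun f _ => (hL f).eventually (gt_mem_nhds (by linarith))
  filter_upwards [e1, eventually_le_exp hN #t (half_pos hε), hN.eventually_gt_atTop 0] with n h1 h2 h3
  calc _ ≤ volume.real (⋃ f ∈ t, {σ | α + L f < pair f (emp (G n) σ)}) := by
        refine measureReal_mono (fun σ hσ => ?_) (measure_ne_top _ _)
        simpa using ht ⟨hσ, emp_mem (hS n) σ⟩
    _ ≤ ∑ f ∈ t, Real.exp (Fintype.card (V n) * (ε / 2 - α)) := by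
        refine (measureReal_biUnion_finset_le _ _).trans (sum_le_sum fun f hf => ?_)
        refine (markov h3 _ _ _).trans (Real.exp_le_exp.2 ?_)
        exact mul_le_mul_of_nonneg_left (by linarith [h1 f hf]) (by positivity)
    _ ≤ _ := by
        rw [sum_const, nsmul_eq_mul]
        refine (mul_le_mul_of_nonneg_right h2 (Real.exp_pos _).le).trans (le_of_eq ?_)
        rw [← Real.exp_add]
        congr 1
        ring

lemma nhds_basis {U : Set XX} {x : XX} (hU : U ∈ 𝓝 x) : ∃ (t : Finset TF) (η : ℝ), 0 < η ∧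
    ∀ y, (∀ f ∈ t, |pair f y - pair f x| < η) → y ∈ U := by
  classical
  let B : Finset TF × {η : ℝ // 0 < η} → Filter XX :=
    fun p => 𝓟 {y | ∀ f ∈ p.1, |pair f y - pair f x| < p.2}
  have hd : Directed (· ≥ ·) B := fun p q => by
    refine ⟨(p.1 ∪ q.1, ⟨min p.2 q.2, lt_min p.2.2 q.2.2⟩), ?_, ?_⟩
    · exact principal_mono.2 fun y hy f hf => (hy f (mem_union_left _ hf)).trans_le (min_le_left _ _)
    · exact principal_mono.2 fun y hy f hf =>
        (hy f (mem_union_right _ hf)).trans_le (min_le_right _ _)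
  have h1 : ∀ f, Tendsto (pair f) (⨅ p, B p) (𝓝 (pair f x)) := fun f => by
    rw [Metric.tendsto_nhds]
    intro η hη
    refine mem_iInf_of_mem (({f} : Finset TF), ⟨η, hη⟩) (mem_principal.2 fun y hy => ?_)
    exact hy f (mem_singleton_self f)
  have h2 : (⨅ p, B p) ≤ 𝓝 x := by
    rw [nhds_prod_eq]
    refine Tendsto.prodMk (f := ⨅ p, B p) (m₁ := Prod.fst) (m₂ := Prod.snd) ?_ ?_
    · rw [FiniteMeasure.tendsto_iff_forall_integral_tendsto]
      intro g
      have := h1 (g.toContinuousMap, 0)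
      unfold pair at this
      simpa using this
    · rw [FiniteMeasure.tendsto_iff_forall_integral_tendsto]
      intro g
      have := h1 (0, g.toContinuousMap)
      unfold pair at this
      simpa using this
  have : Nonempty (Finset TF × {η : ℝ // 0 < η}) := ⟨(∅, ⟨1, one_pos⟩)⟩
  obtain ⟨p, hp⟩ := (mem_iInf_of_directed hd U).1 (h2 hU)
  exact ⟨p.1, p.2, p.2.2, fun y hy => hp hy⟩

lemma pair_sum {ι : Type} [Fintype ι] (l : ι → ℝ) (f : ι → TF) (x : XX) :
    pair (∑ i, l i • f i) x = ∑ i, l i * pair (f i) x := by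
  have i1 : ∀ g : C(UI, ℝ), Integrable g (x.1 : Measure UI) := fun g =>
    g.continuous.integrable_of_hasCompactSupport (HasCompactSupport.of_compactSpace _)
  have i2 : ∀ g : C(UI × UI, ℝ), Integrable g (x.2 : Measure (UI × UI)) := fun g =>
    g.continuous.integrable_of_hasCompactSupport (HasCompactSupport.of_compactSpace _)
  simp only [pair, Prod.fst_sum, Prod.snd_sum, Prod.smul_fst, Prod.smul_snd,
    ContinuousMap.sum_apply, ContinuousMap.smul_apply, smul_eq_mul, mul_add, sum_add_distrib]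
  rw [integral_finsetSum _ fun i _ => (i1 _).const_mul _,
    integral_finsetSum _ fun i _ => (i2 _).const_mul _]
  simp only [integral_const_mul]

lemma selection {ι Q : Type} [Fintype ι] [Fintype Q] [Nonempty Q] (z : Q → ι → ℝ) (s : Q → ℝ)
    {R B a : ℝ} (hR : 0 < R) (hB : ∀ q i, |z q i| ≤ B) {m : ℕ} (hm : 0 < m)
    (h : ∀ l : ι → ℝ, (∀ i, |l i| ≤ R * B) → ∃ q, a ≤ s q + ∑ i, l i * z q i) :
    ∃ q : Fin m → Q, m * a - 2 * R * Fintype.card ι * B ^ 2 ≤
      ∑ c, s (q c) - R / m * ∑ i, (∑ c, z (q c) i) ^ 2 := by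
  classical
  have hm' : (0 : ℝ) < m := by exact_mod_cast hm
  obtain ⟨q, -, hq⟩ := exists_max_image univ (fun q : Fin m → Q =>
    ∑ c, s (q c) - R / (2 * m) * ∑ i, (∑ c, z (q c) i) ^ 2) univ_nonempty
  refine ⟨q, ?_⟩
  set S : ι → ℝ := fun i => ∑ c, z (q c) i with hS
  obtain ⟨q', hq'⟩ := h (fun i => -(R / m) * S i) fun i => by
    have : |S i| ≤ m * B := by
      refine (abs_sum_le_sum_abs _ _).trans ((sum_le_sum fun c _ => hB (q c) i).trans ?_)
      simp
    rw [abs_mul, abs_neg, abs_of_pos (by positivity : 0 < R / m)]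
    refine (mul_le_mul_of_nonneg_left this (by positivity)).trans (le_of_eq ?_)
    field_simp
  have up : ∀ (g : Q → ℝ) (c : Fin m), ∑ c', g (Function.update q c q' c') =
      ∑ c', g (q c') + (g q' - g (q c)) := fun g c => by
    rw [← add_sum_erase _ _ (mem_univ c), ← add_sum_erase _ _ (mem_univ c), Function.update_self,
      sum_congr rfl fun c' hc' => by rw [Function.update_of_ne (ne_of_mem_erase hc')]]
    ring
  have key : ∀ c, s q' - s (q c) ≤ R / m * ∑ i, S i * (z q' i - z (q c) i) +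
      2 * R * Fintype.card ι * B ^ 2 / m := fun c => by
    have h1 := hq (Function.update q c q') (mem_univ _)
    simp only [up s c, fun i => up (fun r => z r i) c] at h1
    have h2 : ∑ i, (S i + (z q' i - z (q c) i)) ^ 2 ≤ ∑ i, S i ^ 2 +
        2 * ∑ i, S i * (z q' i - z (q c) i) + Fintype.card ι * (4 * B ^ 2) := by
      rw [mul_sum, ← sum_add_distrib, ← card_univ, ← nsmul_eq_mul, ← sum_const, ← sum_add_distrib]
      refine sum_le_sum fun i _ => ?_
      have a1 := abs_le.1 (hB q' i)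
      have a2 := abs_le.1 (hB (q c) i)
      nlinarith
    have h3 := mul_le_mul_of_nonneg_left h2 (by positivity : 0 ≤ R / (2 * m))
    have h4 : R / (2 * m) * (∑ i, S i ^ 2 + 2 * ∑ i, S i * (z q' i - z (q c) i) +
        Fintype.card ι * (4 * B ^ 2)) = R / (2 * m) * ∑ i, S i ^ 2 +
        (R / m * ∑ i, S i * (z q' i - z (q c) i) + 2 * R * Fintype.card ι * B ^ 2 / m) := by
      field_simp
      ring
    simp only [hS] at h3 h4 ⊢
    linarith
  have h5 := sum_le_sum fun c (_ : c ∈ univ) => key c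
  rw [sum_sub_distrib, sum_add_distrib, ← mul_sum, sum_comm] at h5
  simp only [← mul_sum, sum_sub_distrib, sum_const, card_univ, Fintype.card_fin, nsmul_eq_mul] at h5
  have h6 : ∑ i, S i * (m * z q' i - S i) = m * ∑ i, S i * z q' i - ∑ i, S i ^ 2 := by
    rw [mul_sum, ← sum_sub_distrib]
    exact sum_congr rfl fun i _ => by ring
  have h7 : ∑ i, -(R / m) * S i * z q' i = -(R / m) * ∑ i, S i * z q' i := by
    rw [mul_sum]
    exact sum_congr rfl fun i _ => by ring
  change m * s q' - ∑ c, s (q c) ≤ R / m * ∑ i, S i * (m * z q' i - S i) + _ at h5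
  rw [h6, mul_div_cancel₀ _ hm'.ne'] at h5
  rw [h7] at hq'
  have h8 := mul_le_mul_of_nonneg_left hq' hm'.le
  have h9 : (m : ℝ) * (s q' + -(R / m) * ∑ i, S i * z q' i) =
      m * s q' - R / m * (m * ∑ i, S i * z q' i) := by ring
  rw [mul_sub (R / m)] at h5
  linarith

lemma uniform_lower {W : ℕ → Type} [∀ n, Fintype (W n)] {F : ∀ n, SimpleGraph (W n)} {D : ℕ}
    (hS : ∀ n, Sparse (F n) D) {L : TF → ℝ} (hL : ∀ f, Tendsto (fun n => Lam (F n) f) atTop (𝓝 (L f)))
    {x : XX} {s : ℝ} (hs : ∀ f, pair f x - L f ≤ s) {ι : Type} [Fintype ι] (f : ι → TF) (r : ℝ)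
    {ε : ℝ} (hε : 0 < ε) : ∀ᶠ n in atTop, ∀ l : ι → ℝ, (∀ i, |l i| ≤ r) →
      -s - ε ≤ Lam (F n) (∑ i, l i • f i) - ∑ i, l i * pair (f i) x := by
  have hK : IsCompact (Set.Icc (fun _ : ι => -r) (fun _ => r)) := isCompact_Icc
  have := hK.mem_prod_nhdsSet_of_forall (l := atTop) (s := {p : ℕ × (ι → ℝ) |
      -s - ε ≤ Lam (F p.1) (∑ i, p.2 i • f i) - ∑ i, p.2 i * pair (f i) x}) fun l0 _ => by
    have c1 : Continuous fun l : ι → ℝ => (1 + D : ℝ) * dist (∑ i, l i • f i) (∑ i, l0 i • f i) +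
        (∑ i, l i * pair (f i) x - ∑ i, l0 i * pair (f i) x) := by fun_prop
    have e1 := c1.continuousAt (x := l0).eventually (gt_mem_nhds (a := ε / 2) (by simpa using hε))
    have e2 := (hL (∑ i, l0 i • f i)).eventually
      (lt_mem_nhds (a := L (∑ i, l0 i • f i) - ε / 2) (by linarith))
    refine mem_of_superset (prod_mem_prod e2 e1) fun p hp => ?_
    have h1 := hs (∑ i, l0 i • f i)
    rw [pair_sum] at h1
    have h2 := (abs_le.1 (Lam_lip (hS p.1) (∑ i, p.2 i • f i) (∑ i, l0 i • f i))).1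
    have h3 := hp.1
    have h4 := hp.2
    simp only [Set.mem_ofPred_eq] at h3 h4 ⊢
    linarith
  obtain ⟨A, hA, B, hB, hAB⟩ := mem_prod_iff.1 this
  filter_upwards [hA] with n hn l hl
  exact hAB (Set.mk_mem_prod hn (subset_of_mem_nhdsSet hB
    ⟨fun i => (abs_le.1 (hl i)).1, fun i => (abs_le.1 (hl i)).2⟩))

end Pool.Agent.P.MP_4503fd_co
end

-- part Pool.Agent.P.MP_4503fd_co.LDP2
section

/-! Large deviations principle for many disjoint copies of graphs with converging free energies. -/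

namespace Pool.Agent.P.MP_4503fd_co

open MeasureTheory Filter Topology Finset
open scoped NNReal ENNReal

lemma cells {Ω ι : Type} [MeasurableSpace Ω] (μ : Measure Ω) [IsProbabilityMeasure μ] [Fintype ι]
    [DecidableEq ι] {Y : Ω → ι → ℝ} (hY : Measurable Y) {B0 δ : ℝ} (hB : ∀ σ i, |Y σ i| ≤ B0)
    (hδ : 0 < δ) {M : ℕ} (hM : B0 / δ + 1 ≤ M) {N : ℝ} (hN : 0 ≤ N) (l : ι → ℝ) :
    ∃ q : ι → ℤ, 0 < μ.real {σ | ∀ i, ⌊Y σ i / δ⌋ = q i} ∧
      Real.log (∫ σ, Real.exp (N * ∑ i, l i * Y σ i) ∂μ) ≤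
        Fintype.card ι * Real.log (2 * M + 1) + Real.log (μ.real {σ | ∀ i, ⌊Y σ i / δ⌋ = q i}) +
          N * (∑ i, l i * (δ * q i) + δ * ∑ i, |l i|) := by
  classical
  let T : Finset (ι → ℤ) := Fintype.piFinset fun _ => Icc (-(M : ℤ)) M
  let A : (ι → ℤ) → Set Ω := fun q => {σ | ∀ i, ⌊Y σ i / δ⌋ = q i}
  let e : (ι → ℤ) → ℝ := fun q => Real.exp (N * (∑ i, l i * (δ * q i) + δ * ∑ i, |l i|))
  have hA : ∀ q, MeasurableSet (A q) := fun q => by
    simp only [A, Set.ofPred_forall]
    refine MeasurableSet.iInter fun i => ?_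
    exact (Int.measurable_floor.comp (((measurable_pi_apply i).comp hY).div_const δ))
      (measurableSet_singleton (q i))
  have hT : ∀ σ, (fun i => ⌊Y σ i / δ⌋) ∈ T := fun σ => by
    simp only [T, Fintype.mem_piFinset, mem_Icc]
    intro i
    have h1 := abs_le.1 (hB σ i)
    have h2 : Y σ i / δ ≤ B0 / δ := div_le_div_of_nonneg_right h1.2 hδ.le
    have h3 : -B0 / δ ≤ Y σ i / δ := div_le_div_of_nonneg_right h1.1 hδ.le
    rw [neg_div] at h3
    constructor
    · rw [Int.le_floor]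
      push_cast
      linarith
    · have := Int.floor_le (Y σ i / δ)
      have h4 : (⌊Y σ i / δ⌋ : ℝ) ≤ (M : ℤ) := by push_cast; linarith
      exact_mod_cast h4
  have hpt : ∀ σ, Real.exp (N * ∑ i, l i * Y σ i) ≤ ∑ q ∈ T, (A q).indicator (fun _ => e q) σ := by
    intro σ
    refine le_trans ?_ (single_le_sum (f := fun q => (A q).indicator (fun _ => e q) σ)
      (fun q _ => Set.indicator_nonneg (fun _ _ => (Real.exp_pos _).le) σ) (hT σ))
    rw [Set.indicator_of_mem (by intro i; rfl)]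
    refine Real.exp_le_exp.2 (mul_le_mul_of_nonneg_left ?_ hN)
    rw [mul_sum, ← sum_add_distrib]
    refine sum_le_sum fun i _ => ?_
    have h1 := Int.floor_le (Y σ i / δ)
    have h2 := Int.lt_floor_add_one (Y σ i / δ)
    rw [le_div_iff₀ hδ] at h1
    rw [div_lt_iff₀ hδ] at h2
    have h3 : |Y σ i - δ * ⌊Y σ i / δ⌋| ≤ δ := abs_le.2 ⟨by linarith, by linarith⟩
    have h4 : l i * (Y σ i - δ * ⌊Y σ i / δ⌋) ≤ |l i| * δ :=
      (le_abs_self _).trans (by rw [abs_mul]; gcongr)
    linarith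
  have hi : ∀ q ∈ T, Integrable ((A q).indicator fun _ => e q) μ := fun q _ =>
    (integrable_const _).indicator (hA q)
  have hi2 : Integrable (fun σ => Real.exp (N * ∑ i, l i * Y σ i)) μ :=
    (integrable_finsetSum T hi).mono' (by fun_prop) (Eventually.of_forall fun σ => by
      rw [Real.norm_of_nonneg (Real.exp_pos _).le]; exact hpt σ)
  have h1 := integral_mono hi2 (integrable_finsetSum T hi) hpt
  rw [integral_finsetSum T hi] at h1
  simp only [integral_indicator_const _ (hA _), smul_eq_mul] at h1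
  have h0 := integral_exp_pos hi2
  have hTne : T.Nonempty := by
    by_contra h
    rw [not_nonempty_iff_eq_empty.1 h, sum_empty] at h1
    linarith
  obtain ⟨q, -, hq⟩ := exists_max_image T (fun q => μ.real (A q) * e q) hTne
  have h2 : ∑ q ∈ T, μ.real (A q) * e q ≤ (2 * M + 1 : ℝ) ^ Fintype.card ι * (μ.real (A q) * e q) := by
    refine (sum_le_sum hq).trans (le_of_eq ?_)
    rw [sum_const, nsmul_eq_mul]
    congr 1
    simp only [T, Fintype.card_piFinset, Int.card_Icc, prod_const, card_univ]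
    rw [show ((M : ℤ) + 1 - -(M : ℤ)).toNat = 2 * M + 1 by omega]
    push_cast
    rfl
  have h3 := h1.trans h2
  have hp : 0 < μ.real (A q) := by
    refine lt_of_le_of_ne measureReal_nonneg fun h => ?_
    rw [← h, zero_mul, mul_zero] at h3
    linarith
  refine ⟨q, hp, (Real.log_le_log h0 h3).trans (le_of_eq ?_)⟩
  rw [Real.log_mul (by positivity) (by positivity), Real.log_mul hp.ne' (Real.exp_pos _).ne',
    Real.log_pow, Real.log_exp, add_assoc]

lemma pair_zero (x : XX) : pair 0 x = 0 := by simp [pair]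

lemma abs_pair_emp {V : Type} [Fintype V] {G : SimpleGraph V} {D : ℕ} (h : Sparse G D) (f : TF)
    (σ : V → UI) : |pair f (emp G σ)| ≤ (1 + D) * dist f 0 := by
  have := abs_inv_mul_le (by positivity) (en_lip h f 0 σ)
  rwa [← pair_emp, ← pair_emp, pair_zero, sub_zero] at this

lemma lower {W : ℕ → Type} [∀ n, Fintype (W n)] {F : ∀ n, SimpleGraph (W n)} {D : ℕ}
    (hS : ∀ n, Sparse (F n) D) (hN : Tendsto (fun n => Fintype.card (W n)) atTop atTop)
    {L : TF → ℝ} (hL : ∀ f, Tendsto (fun n => Lam (F n) f) atTop (𝓝 (L f)))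
    {U : Set XX} {x : XX} (hU : U ∈ 𝓝 x) {s : ℝ} (hs0 : 0 ≤ s) (hs : ∀ f, pair f x - L f ≤ s)
    {ε : ℝ} (hε : 0 < ε) : ∀ᶠ n in atTop,
      Real.exp (Fintype.card (Fin (n + 1) × W n) * (-s - ε)) ≤
        volume.real {σ | emp (copies (n + 1) (F n)) σ ∈ U} := by
  classical
  obtain ⟨t, η, hη, hU⟩ := nhds_basis hU
  let f : t → TF := fun i => i.1
  set B0 : ℝ := ∑ i, ((1 + D) * dist (f i) 0 + |pair (f i) x|) with hB0
  have hB00 : 0 ≤ B0 := sum_nonneg fun i _ => by positivity
  set B := B0 + 1 with hB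
  set R := 4 * (s + ε + 1) / η ^ 2 with hR
  have hR0 : 0 < R := by positivity
  set κ : ℝ := (Fintype.card t : ℝ) with hκ
  have hκ0 : 0 ≤ κ := by positivity
  set δ := min (min 1 (η / 2)) (ε / 4 / (κ * (R * B) + 1)) with hδ
  have hδ0 : 0 < δ := by positivity
  have hδ1 : δ ≤ 1 := (min_le_left _ _).trans (min_le_left _ _)
  have hδ2 : δ ≤ η / 2 := (min_le_left _ _).trans (min_le_right _ _)
  have hδ3 : δ * (κ * (R * B)) ≤ ε / 4 := by
    have := min_le_right (min 1 (η / 2)) (ε / 4 / (κ * (R * B) + 1))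
    rw [← hδ, le_div_iff₀ (by positivity)] at this
    nlinarith
  obtain ⟨M, hM⟩ := exists_nat_ge (B0 / δ + 1)
  have e1 := uniform_lower hS hL hs f (R * B) (ε := ε / 4) (by positivity)
  have e2 : ∀ᶠ n in atTop, κ * Real.log (2 * M + 1) ≤ Fintype.card (W n) * (ε / 4) :=
    ((tendsto_natCast_atTop_atTop.comp hN).atTop_mul_const
      (by positivity : 0 < ε / 4)).eventually_ge_atTop _
  have e3 : ∀ᶠ n : ℕ in atTop, 2 * R * κ * B ^ 2 ≤ n * (ε / 4) :=
    (tendsto_natCast_atTop_atTop.atTop_mul_const (by positivity : 0 < ε / 4)).eventually_ge_atTop _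
  filter_upwards [e1, e2, e3, hN.eventually_gt_atTop 0] with n h1 h2 h3 h4
  set N : ℝ := (Fintype.card (W n) : ℝ) with hNd
  have hN0 : 0 < N := by rw [hNd]; exact_mod_cast h4
  let Y : (W n → UI) → t → ℝ := fun σ i => pair (f i) (emp (F n) σ) - pair (f i) x
  have hY : Measurable Y := measurable_pi_lambda _ fun i =>
    (((continuous_pair (f i)).comp (continuous_emp (F n))).sub continuous_const).measurable
  have hYB : ∀ σ i, |Y σ i| ≤ B0 := fun σ i => by
    refine le_trans ?_ (single_le_sum (f := fun i => (1 + D) * dist (f i) 0 + |pair (f i) x|)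
      (fun i _ => by positivity) (mem_univ i))
    exact (abs_sub _ _).trans (add_le_add_left (abs_pair_emp (hS n) _ σ) _)
  let A : (t → ℤ) → Set (W n → UI) := fun q => {σ | ∀ i, ⌊Y σ i / δ⌋ = q i}
  have hAq : ∀ q σ, σ ∈ A q → ∀ i, |Y σ i - δ * q i| ≤ δ := fun q σ hσ i => by
    have a1 := Int.floor_le (Y σ i / δ)
    have a2 := Int.lt_floor_add_one (Y σ i / δ)
    rw [le_div_iff₀ hδ0] at a1
    rw [div_lt_iff₀ hδ0] at a2
    rw [hσ i] at a1 a2
    exact abs_le.2 ⟨by linarith, by linarith⟩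
  let Q := {q : t → ℤ // 0 < volume.real (A q)}
  have hQB : ∀ (q : Q) i, |δ * q.1 i| ≤ B := fun q i => by
    obtain ⟨σ, hσ⟩ : (A q.1).Nonempty := by
      by_contra h
      have := q.2
      rw [Set.not_nonempty_iff_eq_empty.1 h] at this
      simp at this
    have a1 := abs_le.1 (hAq _ σ hσ i)
    have a2 := abs_le.1 (hYB σ i)
    exact abs_le.2 ⟨by linarith, by linarith⟩
  have hQfin : Finite Q := by
    obtain ⟨M', hM'⟩ := exists_nat_ge (B / δ)
    refine Finite.of_injective (fun q : Q => fun i : t => (⟨q.1 i, ?_⟩ : Icc (-(M' : ℤ)) M'))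
      fun q q' h => Subtype.ext (funext fun i => congrArg Subtype.val (congrFun h i))
    have a1 := hQB q i
    rw [abs_mul, abs_of_pos hδ0, ← le_div_iff₀' hδ0] at a1
    have a2 : |q.1 i| ≤ M' := by exact_mod_cast a1.trans hM'
    exact mem_Icc.2 (abs_le.1 a2)
  have := Fintype.ofFinite Q
  have hsel : ∀ l : t → ℝ, (∀ i, |l i| ≤ R * B) → ∃ q : Q, -s - 3 * (ε / 4) ≤
      N⁻¹ * Real.log (volume.real (A q.1)) + ∑ i, l i * (δ * q.1 i) := fun l hl => by
    obtain ⟨q, hq, hq'⟩ := cells volume hY hYB hδ0 hM hN0.le l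
    refine ⟨⟨q, hq⟩, ?_⟩
    have a1 := h1 l hl
    have a2 : ∀ σ, N * ∑ i, l i * Y σ i = en (F n) (∑ i, l i • f i).1 (∑ i, l i • f i).2 σ +
        -(N * ∑ i, l i * pair (f i) x) := fun σ => by
      rw [en_eq h4, pair_sum]
      simp only [Y, mul_sub, sum_sub_distrib]
      ring
    simp only [a2, Real.exp_add, integral_mul_const, integral_exp_en h4] at hq'
    rw [← Real.exp_add, Real.log_exp] at hq'
    have a3 : δ * ∑ i, |l i| ≤ ε / 4 := by
      refine le_trans (mul_le_mul_of_nonneg_left ((sum_le_sum fun i _ => hl i).trans ?_) hδ0.le) hδ3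
      simp [hκ]
    have a4 := mul_le_mul_of_nonneg_left a1 hN0.le
    have a5 := mul_le_mul_of_nonneg_left a3 hN0.le
    refine le_of_mul_le_mul_left ?_ hN0
    rw [mul_add N, mul_inv_cancel_left₀ hN0.ne']
    change _ ≤ Real.log (volume.real {σ | ∀ i, ⌊Y σ i / δ⌋ = q i}) + N * ∑ i, l i * (δ * q i)
    nlinarith
  have : Nonempty Q := ⟨(hsel 0 fun i => by simp; positivity).choose⟩
  obtain ⟨q, hq⟩ := selection (fun (q : Q) i => δ * q.1 i)
    (fun q => N⁻¹ * Real.log (volume.real (A q.1))) hR0 hQB (Nat.succ_pos n) hsel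
  set m : ℝ := ((n + 1 : ℕ) : ℝ) with hm
  have hm0 : 0 < m := by positivity
  have hm1 : (n : ℝ) ≤ m := by rw [hm]; push_cast; linarith
  have b1 : m * (-s - ε) + R / m * ∑ i, (∑ c, δ * (q c).1 i) ^ 2 ≤
      ∑ c, N⁻¹ * Real.log (volume.real (A (q c).1)) := by
    have := mul_le_mul_of_nonneg_right hm1 (by positivity : 0 ≤ ε / 4)
    change m * _ - 2 * R * κ * B ^ 2 ≤ _ - R / m * _ at hq
    nlinarith
  have b2 : ∑ c, N⁻¹ * Real.log (volume.real (A (q c).1)) ≤ 0 := sum_nonpos fun c _ =>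
    mul_nonpos_of_nonneg_of_nonpos (by positivity)
      (Real.log_nonpos measureReal_nonneg measureReal_le_one)
  have b3 : ∀ i, |m⁻¹ * ∑ c, δ * (q c).1 i| < η / 2 := fun i => by
    have c1 := single_le_sum (f := fun i => (∑ c, δ * (q c).1 i) ^ 2) (fun i _ => sq_nonneg _)
      (mem_univ i)
    have c2 := mul_le_mul_of_nonneg_left c1 (by positivity : 0 ≤ R / m)
    have c3 : R / m * (∑ c, δ * (q c).1 i) ^ 2 ≤ m * (s + ε) := by linarith
    refine abs_lt_of_sq_lt_sq ?_ (by positivity)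
    have c4 : R * (m⁻¹ * ∑ c, δ * (q c).1 i) ^ 2 ≤ s + ε := by
      refine le_of_mul_le_mul_left (le_trans (le_of_eq ?_) c3) hm0
      field_simp
    have c5 : R * (η / 2) ^ 2 = s + ε + 1 := by rw [hR]; field_simp; ring
    refine lt_of_mul_lt_mul_left ?_ hR0.le
    linarith
  calc _ ≤ ∏ c, volume.real (A (q c).1) := by
        have c1 : 0 ≤ R / m * ∑ i, (∑ c, δ * (q c).1 i) ^ 2 :=
          mul_nonneg (by positivity) (sum_nonneg fun _ _ => sq_nonneg _)
        rw [← Real.exp_log (prod_pos fun c _ => (q c).2), Real.exp_le_exp,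
          Real.log_prod fun c _ => (q c).2.ne', Fintype.card_prod, Fintype.card_fin]
        rw [← mul_sum] at b1
        have c2 := mul_le_mul_of_nonneg_left ((le_add_of_nonneg_right c1).trans b1) hN0.le
        rw [mul_inv_cancel_left₀ hN0.ne'] at c2
        refine le_trans (le_of_eq ?_) c2
        rw [Nat.cast_mul]
        ring
    _ = volume.real {σ : Fin (n + 1) × W n → UI | ∀ c, (fun w => σ (c, w)) ∈ A (q c).1} := by
        rw [Measure.real, prob_copies, ENNReal.toReal_prod]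
        rfl
    _ ≤ _ := by
        refine measureReal_mono (fun σ hσ => hU _ fun g hg => ?_) (measure_ne_top _ _)
        have c1 : pair g (emp (copies (n + 1) (F n)) σ) - pair g x =
            m⁻¹ * ∑ c, (Y (fun w => σ (c, w)) ⟨g, hg⟩ - δ * (q c).1 ⟨g, hg⟩) +
              m⁻¹ * ∑ c, δ * (q c).1 ⟨g, hg⟩ := by
          rw [← mul_add, ← sum_add_distrib, pair_emp, en_copies]
          simp only [sub_add_cancel, Y, f, en_eq h4, sum_sub_distrib, sum_const, card_univ,
            Fintype.card_fin, nsmul_eq_mul, Fintype.card_prod, ← mul_sum]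
          rw [Nat.cast_mul, ← hm, ← hNd]
          field_simp
        have c2 : |m⁻¹ * ∑ c, (Y (fun w => σ (c, w)) ⟨g, hg⟩ - δ * (q c).1 ⟨g, hg⟩)| ≤ δ := by
          rw [abs_mul, abs_of_pos (inv_pos.2 hm0), inv_mul_le_iff₀ hm0]
          refine (abs_sum_le_sum_abs _ _).trans
            ((sum_le_sum fun c _ => hAq _ _ (hσ c) ⟨g, hg⟩).trans (le_of_eq ?_))
          simp [hm]
        rw [c1]
        have := abs_add_le (m⁻¹ * ∑ c, (Y (fun w => σ (c, w)) ⟨g, hg⟩ - δ * (q c).1 ⟨g, hg⟩))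
          (m⁻¹ * ∑ c, δ * (q c).1 ⟨g, hg⟩)
        linarith [b3 ⟨g, hg⟩]

lemma le_rate {V : Type} [Fintype V] (hV : 0 < Fintype.card V) (G : SimpleGraph V) (A : Set XX)
    {a : ℝ} (h : Real.exp (Fintype.card V * a) ≤ volume.real {σ | emp G σ ∈ A}) :
    (a : EReal) ≤ rate G A := by
  have h0 : (0 : ℝ) < Fintype.card V := by exact_mod_cast hV
  have h1 := (Real.exp_pos _).trans_le h
  rw [rate, ← ofReal_measureReal (measure_ne_top _ _), ENNReal.log_ofReal_of_pos h1,
    ← EReal.coe_mul, EReal.coe_le_coe_iff, le_inv_mul_iff₀ h0]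
  exact (Real.le_log_iff_exp_le h1).2 h

lemma rate_le {V : Type} [Fintype V] (hV : 0 < Fintype.card V) (G : SimpleGraph V) (A : Set XX)
    {a : ℝ} (h : volume.real {σ | emp G σ ∈ A} ≤ Real.exp (Fintype.card V * a)) :
    rate G A ≤ (a : EReal) := by
  have h0 : (0 : ℝ) < Fintype.card V := by exact_mod_cast hV
  have h1 : ENNReal.log (volume {σ | emp G σ ∈ A}) ≤ ((Fintype.card V * a : ℝ) : EReal) := by
    rw [← ofReal_measureReal (measure_ne_top _ _), ← Real.log_exp (Fintype.card V * a),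
      ← ENNReal.log_ofReal_of_pos (Real.exp_pos _)]
    exact ENNReal.log_monotone (ENNReal.ofReal_le_ofReal h)
  refine (mul_le_mul_of_nonneg_left h1 (by exact_mod_cast (inv_pos.2 h0).le)).trans (le_of_eq ?_)
  rw [← EReal.coe_mul, inv_mul_cancel_left₀ h0.ne']

theorem ldConv_copies {W : ℕ → Type} [∀ n, Fintype (W n)] {F : ∀ n, SimpleGraph (W n)} {D : ℕ}
    (hD : ∀ n v, ((F n).neighborSet v).ncard ≤ D)
    (hN : Tendsto (fun n => Fintype.card (W n)) atTop atTop)
    (hc : ∀ f, CauchySeq fun n => Lam (F n) f) :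
    LDConv (fun n => Fin (n + 1) × W n) (fun n => copies (n + 1) (F n)) := by
  choose L hL using fun f => cauchySeq_tendsto_of_complete (hc f)
  have hS : ∀ n, Sparse (F n) D := fun n => sparse_of_degree (hD n)
  have hS' : ∀ n, Sparse (copies (n + 1) (F n)) D := fun n =>
    sparse_of_degree fun v => (degree_copies _ _ v).trans_le (hD n _)
  have hN' : Tendsto (fun n => Fintype.card (Fin (n + 1) × W n)) atTop atTop :=
    tendsto_atTop_mono (fun n => by
      rw [Fintype.card_prod, Fintype.card_fin]; exact Nat.le_mul_of_pos_left _ n.succ_pos) hN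
  have hL' : ∀ f, Tendsto (fun n => Lam (copies (n + 1) (F n)) f) atTop (𝓝 (L f)) := fun f => by
    simpa only [Lam_copies (Nat.succ_pos _)] using hL f
  have hL0 : L 0 = 0 := tendsto_nhds_unique (hL 0) (by simp [Lam_zero])
  refine ⟨fun x => ⨆ f, ENNReal.ofReal (pair f x - L f), lowerSemicontinuous_iSup fun f =>
    (ENNReal.continuous_ofReal.comp ((continuous_pair f).sub continuous_const)).lowerSemicontinuous,
    fun A => ⟨?_, ?_⟩⟩
  · refine EReal.ge_of_forall_gt_iff_ge.1 fun z hz => ?_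
    rw [EReal.lt_neg_comm, ← EReal.coe_neg] at hz
    have hz0 : 0 < -z := by
      have := (EReal.coe_ennreal_nonneg _).trans_lt hz
      exact_mod_cast this
    rw [show ((-z : ℝ) : EReal) = (ENNReal.ofReal (-z) : ℝ≥0∞) by
      rw [EReal.coe_ennreal_ofReal, max_eq_left hz0.le], EReal.coe_ennreal_lt_coe_ennreal_iff] at hz
    simp only [iInf_lt_iff] at hz
    obtain ⟨x, hx, hz⟩ := hz
    set I := ⨆ f, ENNReal.ofReal (pair f x - L f) with hI
    have hI1 : I ≠ ∞ := (hz.trans ENNReal.ofReal_lt_top).ne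
    have hI2 : I.toReal < -z := (ENNReal.lt_ofReal_iff_toReal_lt hI1).1 hz
    have hs : ∀ f, pair f x - L f ≤ I.toReal := fun f =>
      (ENNReal.ofReal_le_iff_le_toReal hI1).1 (le_iSup (fun f => ENNReal.ofReal (pair f x - L f)) f)
    refine le_liminf_of_le (by isBoundedDefault) ?_
    filter_upwards [lower hS hN hL (isOpen_interior.mem_nhds hx) ENNReal.toReal_nonneg hs
      (sub_pos.2 hI2), hN'.eventually_gt_atTop 0] with n h1 h2
    refine le_rate h2 _ _ (le_trans (le_of_eq ?_) h1)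
    congr 2
    ring
  · refine EReal.le_of_forall_lt_iff_le.1 fun z hz => ?_
    rw [EReal.neg_lt_comm, ← EReal.coe_neg] at hz
    obtain ⟨α, h1, h2⟩ := EReal.lt_iff_exists_real_btwn.1 hz
    have h1' : -z < α := by exact_mod_cast h1
    have hα : ∀ x ∈ closure A, ∃ f, α < pair f x - L f := fun x hx => by
      rcases lt_or_ge α 0 with h | h
      · exact ⟨0, by simpa [pair_zero, hL0] using h⟩
      · rw [show (α : EReal) = (ENNReal.ofReal α : ℝ≥0∞) by
          rw [EReal.coe_ennreal_ofReal, max_eq_left h], EReal.coe_ennreal_lt_coe_ennreal_iff] at h2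
        obtain ⟨f, hf⟩ := lt_iSup_iff.1 (h2.trans_le (iInf₂_le x hx))
        exact ⟨f, (ENNReal.ofReal_lt_ofReal_iff_of_nonneg h).1 hf⟩
    refine limsup_le_of_le (by isBoundedDefault) ?_
    filter_upwards [upper hS' hN' hL' isClosed_closure hα (ε := α + z) (by linarith),
      hN'.eventually_gt_atTop 0] with n h1 h2
    refine rate_le h2 _ _ (h1.trans (le_of_eq ?_))
    congr 2
    ring

end Pool.Agent.P.MP_4503fd_co
end
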