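import Pool.Agent.K.MP_4503fd_co.C0

/-! An LD-convergent sequence which is not colored-neighborhood-convergent. -/

namespace Pool.Agent.P.MP_4503fd_co

open Finset Filter Topology

/-! ### a statistic of coloured balls -/

def AllSame (x : Rooted 2) : Prop :=
  ∀ u v, x.G.Adj x.root u → x.G.Adj x.root v → x.c u = x.c v

lemma SameBall.symm {k r : ℕ} {x y : Rooted k} (h : SameBall k r x y) : SameBall k r y x := by
  obtain ⟨e, he⟩ := h
  refine ⟨e.symm, fun u => ?_⟩
  have := he (e.symm u)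
  rw [e.apply_symm_apply] at this
  exact ⟨this.1.symm, this.2.symm⟩

lemma SameBall.allSame {x y : Rooted 2} (h : SameBall 2 1 x y) (hy : AllSame y) : AllSame x := by
  obtain ⟨e, he⟩ := h
  intro u v hu hv
  have m0 : x.root ∈ {u | x.G.edist x.root u ≤ (1 : ℕ)} := by simp
  have m1 : ∀ {u}, x.G.Adj x.root u → u ∈ {u | x.G.edist x.root u ≤ (1 : ℕ)} := fun hu =>
    (SimpleGraph.edist_eq_one_iff_adj.2 hu).le
  have a : ∀ {u} (hu : x.G.Adj x.root u), y.G.Adj y.root (e ⟨u, m1 hu⟩) := fun {u} hu => by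
    have h1 : (x.G.induce _).Adj ⟨x.root, m0⟩ ⟨u, m1 hu⟩ := hu
    have h2 := e.map_adj_iff.2 h1
    have h3 : y.G.Adj (e ⟨x.root, m0⟩) (e ⟨u, m1 hu⟩) := h2
    rwa [(he ⟨x.root, m0⟩).2.2 rfl] at h3
  have := hy _ _ (a hu) (a hv)
  rwa [(he _).1, (he _).1] at this

def AllSameQ : Quot (SameBall 2 1) → Prop :=
  Quot.lift AllSame fun _ _ h => propext ⟨h.symm.allSame, h.allSame⟩

open Classical in
lemma law_apply {V : Type} [Fintype V] (G : SimpleGraph V) (k r : ℕ) (c : V → Fin k)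
    (t : Quot (SameBall k r)) : law G k r c t =
      (Fintype.card V : ℝ)⁻¹ * #{v | Quot.mk _ (⟨V, G, c, v⟩ : Rooted k) = t} := by
  unfold law
  rw [← Set.ncard_coe_finset]
  congr 3
  ext v
  simp

open Classical in
lemma exists_sum_law {V V' : Type} [Fintype V] [Fintype V'] (G : SimpleGraph V)
    (G' : SimpleGraph V')
    (c : V → Fin 2) (c' : V' → Fin 2) (h : ∀ v, ¬ AllSame ⟨V, G, c, v⟩) :
    ∃ A : Finset (Ball 2 1), ∑ t ∈ A, law G 2 1 c t = 0 ∧
    (Fintype.card V' : ℝ)⁻¹ * #{v | AllSame ⟨V', G', c', v⟩} ≤ ∑ t ∈ A, law G' 2 1 c' t := by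
  let q : V' → Quot (SameBall 2 1) := fun v => Quot.mk _ ⟨V', G', c', v⟩
  let s : Finset V' := {v | AllSame ⟨V', G', c', v⟩}
  refine ⟨s.image q, sum_eq_zero fun t ht => ?_, ?_⟩
  · obtain ⟨v, hv, rfl⟩ := mem_image.1 ht
    have hv' : AllSameQ (q v) := (mem_filter.1 hv).2
    rw [law_apply, filter_eq_empty_iff.2, card_empty, Nat.cast_zero, mul_zero]
    intro w _ hw
    rw [← hw] at hv'
    exact h w hv'
  · rw [card_eq_sum_card_image q s, Nat.cast_sum, mul_sum]
    refine sum_le_sum fun t ht => ?_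
    rw [law_apply]
    gcongr
    intro w hw
    simpa using (mem_filter.1 hw).2

lemma abs_lt_of_tv {T : Type 1} {p q : T → ℝ} {ε : ℝ} (hε : 0 < ε) (h : tv p q < ENNReal.ofReal ε)
    (A : Finset T) : |∑ t ∈ A, p t - ∑ t ∈ A, q t| < ε :=
  (ENNReal.ofReal_lt_ofReal_iff hε).1 ((le_iSup (fun A : Finset T =>
    ENNReal.ofReal |∑ t ∈ A, p t - ∑ t ∈ A, q t|) A).trans_lt h)

/-! ### the sequence -/

abbrev JJ := Fin 3 × Fin 30
abbrev BB := Bool × Bool

def xorE : BB ≃ BB where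
  toFun p := (p.2, xor p.1 p.2)
  invFun p := (xor p.1 p.2, p.1)
  left_inv := by decide
  right_inv := by decide

def k4 : Fin 3 → BB ≃ BB := ![Equiv.refl _, Equiv.prodComm _ _, xorE]

lemma k4_spec : ∀ m : BB → Fin 2, ∃ a i, m (k4 a (i, false)) = m (k4 a (i, true)) := by
  decide

def base (n : ℕ) : JJ → BB ≃ BB := fun j => if Even n then Equiv.refl _ else k4 j.1

noncomputable def fs (i : ℕ) : TF := TopologicalSpace.denseSeq TF i

lemma exists_lift (n : ℕ) : ∃ (N : ℕ) (π : JJ × Bool → Equiv.Perm (Fin N)), n < N ∧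
    (¬ Even n → ∀ c, N < mono (base n) π c) ∧ ∀ i ≤ n, ∀ k ≤ n,
      |Real.log ((model k (fs i)).Z (base n) π) - N * 4 * Real.log ((model k (fs i)).Phi JJ)| ≤
        1 / (n + 1) * N := by
  classical
  have := exists_good (range (n + 1) ×ˢ range (n + 1)) (fun p : ℕ × ℕ => model p.2 (fs p.1))
    (fun p => model_pos JJ _ _) (base n) (fun N π => ¬ Even n ∧ ∃ c, mono (base n) π c ≤ N)
    (r := 1 / 2) (by norm_num) (by norm_num) 60 (fun N hN => by
      by_cases h : Even n
      · simp only [h, not_true, false_and, if_false, Av_const]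
        positivity
      · have h1 : base n = fun j : JJ => k4 j.1 := by funext j; simp [base, h]
        simp only [h, not_false_iff, true_and, h1]
        convert Av_bad (by simp) k4 k4_spec hN) (ε := 1 / (n + 1)) (by positivity)
  obtain ⟨N, ⟨π, h1, h2⟩, h3⟩ := (this.and (eventually_gt_atTop n)).exists
  refine ⟨N, π, h3, fun h c => ?_, fun i hi k hk => ?_⟩
  · by_contra hc
    exact h1 ⟨h, c, not_lt.1 hc⟩
  · simpa using h2 (i, k) (by simp; omega)

noncomputable def NN (n : ℕ) : ℕ := (exists_lift n).choose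

noncomputable def pp (n : ℕ) : JJ × Bool → Equiv.Perm (Fin (NN n)) :=
  (exists_lift n).choose_spec.choose

lemma pp_spec (n : ℕ) : n < NN n ∧
    (¬ Even n → ∀ c, NN n < mono (base n) (pp n) c) ∧ ∀ i ≤ n, ∀ k ≤ n,
      |Real.log ((model k (fs i)).Z (base n) (pp n)) -
        NN n * 4 * Real.log ((model k (fs i)).Phi JJ)| ≤ 1 / (n + 1) * NN n :=
  (exists_lift n).choose_spec.choose_spec

abbrev WW (n : ℕ) : Type := (BB × Fin (NN n)) ⊕ ((JJ × Bool) × Fin (NN n))

noncomputable def FF (n : ℕ) : SimpleGraph (WW n) := liftG (base n) (pp n)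

lemma card_WW (n : ℕ) : Fintype.card (WW n) = 184 * NN n := by
  simp
  ring

lemma degree_FF (n : ℕ) (v : WW n) : ((FF n).neighborSet v).ncard ≤ 90 := by
  simpa [FF] using degree_liftG (J := JJ) (by simp) (base n) (pp n) v

lemma tendsto_WW : Tendsto (fun n => Fintype.card (WW n)) atTop atTop :=
  tendsto_atTop_mono (fun n => by
    have := (pp_spec n).1
    rw [card_WW, id]
    omega) tendsto_id

lemma cauchy_FF (f : TF) : CauchySeq fun n => Lam (FF n) f := by
  rw [Metric.cauchySeq_iff]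
  intro ε hε
  obtain ⟨i, hi⟩ := (TopologicalSpace.denseRange_denseSeq TF).exists_dist_lt f
    (by positivity : 0 < ε / 1000)
  obtain ⟨k, hk⟩ := Lam_disc (fs i) (by positivity : 0 < ε / 1000)
  obtain ⟨n0, hn0⟩ := exists_nat_one_div_lt (by positivity : 0 < ε / 1000)
  have key : ∀ n, max (max i k) n0 ≤ n →
      |Lam (FF n) f - 4 / 184 * Real.log ((model k (fs i)).Phi JJ)| ≤ ε / 4 := fun n hn => by
    have hS : Sparse (FF n) 90 := sparse_of_degree (degree_FF n)
    have h1 := Lam_lip hS f (fs i)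
    have h2 := hk (WW n) (FF n) 90 hS
    have h3 := (pp_spec n).2.2 i (by omega) k (by omega)
    have hN : (0 : ℝ) < NN n := by
      have := (pp_spec n).1
      exact_mod_cast (by omega : 0 < NN n)
    rw [FF, ZD_liftG, ← FF, card_WW] at h2
    have h4 : (1 : ℝ) / (n + 1) ≤ 1 / (n0 + 1) := by
      have : (n0 : ℝ) ≤ n := by exact_mod_cast (by omega : n0 ≤ n)
      gcongr
    have h5 : |((184 * NN n : ℕ) : ℝ)⁻¹ * Real.log ((model k (fs i)).Z (base n) (pp n)) -
        4 / 184 * Real.log ((model k (fs i)).Phi JJ)| ≤ ε / 1000 := by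
      rw [show 4 / 184 * Real.log ((model k (fs i)).Phi JJ) = ((184 * NN n : ℕ) : ℝ)⁻¹ *
        (NN n * 4 * Real.log ((model k (fs i)).Phi JJ)) by push_cast; field_simp]
      refine abs_inv_mul_le (by positivity) (h3.trans ?_)
      push_cast
      nlinarith
    have h6 : dist f (fs i) < ε / 1000 := hi
    rw [abs_le] at h1 h2 h5 ⊢
    push_cast at h1 h2 h5
    constructor <;> linarith [h1.1, h1.2, h2.1, h2.2, h5.1, h5.2]
  refine ⟨max (max i k) n0, fun m hm n hn => ?_⟩
  have h1 := abs_le.1 (key m hm)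
  have h2 := abs_le.1 (key n hn)
  rw [Real.dist_eq, abs_lt]
  constructor <;> linarith [h1.1, h1.2, h2.1, h2.2]

/-- the colouring of the bipartite lifts -/
def col (n m : ℕ) : Fin m × WW n → Fin 2 := fun p =>
  Sum.elim (fun x => if x.1.2 then 1 else 0) (fun e => if e.1.1.1 = 0 then 1 else 0) p.2

lemma not_allSame {n : ℕ} (hn : Even n) (m : ℕ) (v : Fin m × WW n) :
    ¬ AllSame ⟨_, copies m (FF n), col n m, v⟩ := by
  intro h
  have hb : ∀ j, base n j = Equiv.refl _ := fun j => by simp [base, hn]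
  obtain ⟨c, ⟨⟨i, b⟩, y⟩ | e⟩ := v
  · have a : ∀ j : JJ, (copies m (FF n)).Adj (c, .inl ((i, b), y))
        (c, .inr ((j, i), if b then (pp n (j, i)).symm y else y)) := fun j => by
      refine ⟨rfl, ?_⟩
      cases b <;> simp [FF, liftG, Lft, Rgt, hb]
    have := h _ _ (a (0, 0)) (a (1, 0))
    simp [col] at this
  · have := h (c, .inl (Lft (base n) e)) (c, .inl (Rgt (base n) (pp n) e))
      ⟨rfl, Or.inl rfl⟩ ⟨rfl, Or.inr rfl⟩
    simp [col, Lft, Rgt, hb] at this

set_option maxRecDepth 100000 in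
open Classical in
lemma many_allSame {n : ℕ} (hn : ¬ Even n) (m : ℕ) (c : Fin m × WW n → Fin 2) :
    m * NN n ≤ #{v | AllSame ⟨_, copies m (FF n), c, v⟩} := by
  rw [card_eq_sum_card_fiberwise (f := Prod.fst) (t := univ) (by simp)]
  refine le_trans (by simp) (sum_le_sum (f := fun _ => NN n) fun i _ => ?_)
  refine ((pp_spec n).2.1 hn fun v u => c (i, .inl (v, u))).le.trans ?_
  refine card_le_card_of_injOn (fun e => (i, .inr e)) ?_ fun e _ e' _ h => by simpa using h
  intro e he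
  simp only [coe_filter, mem_filter, mem_univ, true_and, Set.mem_ofPred_eq, and_true] at he ⊢
  have key : ∀ u, (copies m (FF n)).Adj (i, .inr e) u → c u = c (i, .inl (Lft (base n) e)) := by
    rintro ⟨i', a | a⟩ ⟨h1, h2⟩
    · obtain rfl : i = i' := h1
      rcases h2 with rfl | rfl
      · rfl
      · exact he.symm
    · exact h2.elim
  exact fun u v hu hv => (key u hu).trans (key v hv).symm

theorem not_cnConv : ¬ CNConv (fun n => Fin (n + 1) × WW n) (fun n => copies (n + 1) (FF n)) := by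
  intro h
  obtain ⟨Q, hQ⟩ := h 2 1 (by norm_num) le_rfl
  obtain ⟨n0, h0⟩ := eventually_atTop.1
    (hQ.eventually (gt_mem_nhds (a := ENNReal.ofReal (1 / 400)) (by simp)))
  have h1 := h0 (2 * n0) (by omega)
  have h2 := h0 (2 * n0 + 1) (by omega)
  have h3 := (le_iSup₂ (f := fun p (_ : p ∈ Set.range (law (copies (2 * n0 + 1) (FF (2 * n0))) 2 1))
    => ⨅ q ∈ Q, tv p q) _ (Set.mem_range_self (col (2 * n0) (2 * n0 + 1)))).trans_lt
    ((le_max_left _ _).trans_lt h1)
  obtain ⟨q, hq⟩ := iInf_lt_iff.1 h3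
  obtain ⟨hqQ, hq⟩ := iInf_lt_iff.1 hq
  have h4 := (le_iSup₂ (f := fun q (_ : q ∈ Q) => ⨅ p ∈ Set.range
    (law (copies (2 * n0 + 1 + 1) (FF (2 * n0 + 1))) 2 1), tv p q) q hqQ).trans_lt
    ((le_max_right _ _).trans_lt h2)
  obtain ⟨p, hp⟩ := iInf_lt_iff.1 h4
  obtain ⟨⟨c, rfl⟩, hp⟩ := iInf_lt_iff.1 hp
  obtain ⟨A, a1, a2⟩ := exists_sum_law _ (copies (2 * n0 + 1 + 1) (FF (2 * n0 + 1))) _ c
    (not_allSame (n := 2 * n0) (by simp) (2 * n0 + 1))
  have b1 := abs_lt.1 (abs_lt_of_tv (by norm_num) hq A)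
  have b2 := abs_lt.1 (abs_lt_of_tv (by norm_num) hp A)
  refine absurd (a2.trans_lt (show _ < 1 / 200 by linarith [b1.1, b2.2])) (not_lt.2 ?_)
  have h5 := many_allSame (n := 2 * n0 + 1) (by simp) _ c
  have h6 : 0 < NN (2 * n0 + 1) := by have := (pp_spec (2 * n0 + 1)).1; omega
  rw [le_inv_mul_iff₀ (by
    rw [Fintype.card_prod, card_WW, Fintype.card_fin]; positivity), Fintype.card_prod, card_WW,
    Fintype.card_fin]
  refine le_trans ?_ (Nat.cast_le.2 h5)
  push_cast
  have : (0 : ℝ) ≤ (2 * n0 + 1 + 1) * NN (2 * n0 + 1) := by positivity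
  nlinarith

theorem main : ∃ (D : ℕ) (V : ℕ → Type) (_ : ∀ n, Fintype (V n)) (G : ∀ n, SimpleGraph (V n)),
    (∀ n v, ((G n).neighborSet v).ncard ≤ D) ∧
    Tendsto (fun n => Fintype.card (V n)) atTop atTop ∧ LDConv V G ∧ ¬ CNConv V G :=
  ⟨90, fun n => Fin (n + 1) × WW n, inferInstance, fun n => copies (n + 1) (FF n),
    fun n v => (degree_copies _ _ v).trans_le (degree_FF n _),
    tendsto_atTop_mono (fun n => by
      rw [Fintype.card_prod, Fintype.card_fin]; exact Nat.le_mul_of_pos_left _ n.succ_pos)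
      tendsto_WW,
    ldConv_copies degree_FF tendsto_WW cauchy_FF, not_cnConv⟩

end Pool.Agent.P.MP_4503fd_co
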